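import Mathlib

/-!
# Models of ZF, and compact, Hausdorff, quasi-metrizable and metrizable spaces inside them

`E x y` is the membership relation of a structure `(M, E)` for the language of set theory.
-/

set_option autoImplicit false

universe u

namespace Pool.Agent.MP_dae09c_lc

/-- Formulas of the language of set theory with parameters from `M` and free variables among
`0, …, n - 1`. A term is a variable (`Sum.inl i`) or a parameter (`Sum.inr a`). The quantifier
`all` binds the last variable. -/
inductive Fml (M : Type u) : ℕ → Type u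
  | mem {n : ℕ} (s t : Fin n ⊕ M) : Fml M n
  | eq {n : ℕ} (s t : Fin n ⊕ M) : Fml M n
  | neg {n : ℕ} (φ : Fml M n) : Fml M n
  | and {n : ℕ} (φ ψ : Fml M n) : Fml M n
  | all {n : ℕ} (φ : Fml M (n + 1)) : Fml M n

/-- Satisfaction of a formula in `(M, E)` under an assignment of the free variables. -/
def Fml.Sat {M : Type u} (E : M → M → Prop) : {n : ℕ} → Fml M n → (Fin n → M) → Prop
  | _, .mem s t, v => E (Sum.elim v id s) (Sum.elim v id t)
  | _, .eq s t, v => Sum.elim v id s = Sum.elim v id t
  | _, .neg φ, v => ¬ φ.Sat E v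
  | _, .and φ ψ, v => φ.Sat E v ∧ ψ.Sat E v
  | _, .all φ, v => ∀ x : M, φ.Sat E (Fin.snoc v x)

/-- `(M, E)` is a model of Zermelo-Fraenkel set theory (without choice). Separation and
replacement are the usual schemas: one axiom for each formula with parameters from `M`. -/
structure IsModelZF {M : Type u} (E : M → M → Prop) : Prop where
  nonempty : Nonempty M
  extensionality : ∀ a b : M, (∀ x, E x a ↔ E x b) → a = b
  foundation : ∀ a : M, (∃ x, E x a) → ∃ x, E x a ∧ ∀ y, E y x → ¬ E y a
  pairing : ∀ a b : M, ∃ c, ∀ x, E x c ↔ x = a ∨ x = b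
  union : ∀ a : M, ∃ b, ∀ x, E x b ↔ ∃ y, E y a ∧ E x y
  powerset : ∀ a : M, ∃ b, ∀ x, E x b ↔ ∀ y, E y x → E y a
  infinity : ∃ w : M, (∃ e, E e w ∧ ∀ x, ¬ E x e) ∧
    ∀ x, E x w → ∃ y, E y w ∧ ∀ z, E z y ↔ E z x ∨ z = x
  separation : ∀ (φ : Fml M 1) (a : M), ∃ b, ∀ x, E x b ↔ E x a ∧ φ.Sat E (fun _ => x)
  replacement : ∀ (φ : Fml M 2) (a : M), (∀ x, E x a → ∃! y, φ.Sat E ![x, y]) →
    ∃ b, ∀ y, E y b ↔ ∃ x, E x a ∧ φ.Sat E ![x, y]

/-- The elements of the set `a` of the model, as a type. -/
def Elt {M : Type u} (E : M → M → Prop) (a : M) : Type u := {x : M // E x a}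

/-- `p` is the ordered pair `(a, b) = {{a}, {a, b}}` of the model. -/
def IsPair {M : Type u} (E : M → M → Prop) (p a b : M) : Prop :=
  ∀ z, E z p ↔ (∀ w, E w z ↔ w = a) ∨ (∀ w, E w z ↔ w = a ∨ w = b)

/-- The element `f` of the model is the graph, in the sense of the model, of the function
`F : A → B`: its elements are exactly the pairs `(a, F a)`. -/
def IsGraph₁ {M : Type u} (E : M → M → Prop) {A B : M} (f : M) (F : Elt E A → Elt E B) : Prop :=
  ∀ p, E p f ↔ ∃ a, IsPair E p a.1 (F a).1

/-- The element `f` of the model is the graph, in the sense of the model, of the function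
`F : A × B → C`: its elements are exactly the pairs `((a, b), F a b)`. -/
def IsGraph₂ {M : Type u} (E : M → M → Prop) {A B C : M} (f : M)
    (F : Elt E A → Elt E B → Elt E C) : Prop :=
  ∀ p, E p f ↔ ∃ a b q, IsPair E q a.1 b.1 ∧ IsPair E p q (F a b).1

/-- The element `f` of the model is, in the sense of the model, the binary relation `F`:
its elements are exactly the pairs `(a, b)` with `F a b`. -/
def IsRel {M : Type u} (E : M → M → Prop) {A B : M} (f : M) (F : Elt E A → Elt E B → Prop) :
    Prop :=
  ∀ p, E p f ↔ ∃ a b, IsPair E p a.1 b.1 ∧ F a b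

/-- `n` is a natural number of the model: it belongs to every inductive set of the model. -/
def IsNat {M : Type u} (E : M → M → Prop) (n : M) : Prop :=
  ∀ w : M, (∀ e, (∀ x, ¬ E x e) → E e w) →
    (∀ x y, E x w → (∀ z, E z y ↔ E z x ∨ z = x) → E y w) → E n w

/-- The set `f` is finite in the sense of the model: the model has a bijection from one of its
natural numbers onto `f`. -/
def IsFinite {M : Type u} (E : M → M → Prop) (f : M) : Prop :=
  ∃ n : M, IsNat E n ∧ ∃ (F : Elt E n ≃ Elt E f) (g : M), IsGraph₁ E g F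

/-- `R` is a complete ordered field, i.e. a copy of the real line, in the sense of the model:
the given operations and order on the elements of `R` make them an ordered field, the addition,
the multiplication and the order are elements of the model, and every set `s` of the model which
meets `R` in a nonempty set bounded above in `R` has a least upper bound in `R` (for `s ∩ R`). -/
structure IsRealLine {M : Type u} (E : M → M → Prop) (R : M) [Field (Elt E R)]
    [LinearOrder (Elt E R)] : Prop where
  ordered : IsStrictOrderedRing (Elt E R)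
  add : ∃ f : M, IsGraph₂ E f (fun a b : Elt E R => a + b)
  mul : ∃ f : M, IsGraph₂ E f (fun a b : Elt E R => a * b)
  le : ∃ f : M, IsRel E f (fun a b : Elt E R => a ≤ b)
  complete : ∀ s : M, (∃ a : Elt E R, E a.1 s) → (∃ b : Elt E R, ∀ a : Elt E R, E a.1 s → a ≤ b) →
    ∃ c : Elt E R, (∀ a : Elt E R, E a.1 s → a ≤ c) ∧
      ∀ b : Elt E R, (∀ a : Elt E R, E a.1 s → a ≤ b) → c ≤ b

/-- `d` is a quasi-metric on `X` with values in the nonnegative elements of `R`, and it is an
element of the model. -/
def IsQuasiMetric {M : Type u} (E : M → M → Prop) (R : M) [Field (Elt E R)]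
    [LinearOrder (Elt E R)] {X : M} (d : Elt E X → Elt E X → Elt E R) : Prop :=
  (∃ f : M, IsGraph₂ E f d) ∧ (∀ x y, 0 ≤ d x y) ∧ (∀ x, d x x = 0) ∧
    (∀ x y z, d x z ≤ d x y + d y z) ∧ ∀ x y, d x y = 0 → d y x = 0 → x = y

/-- The element `T` of the model is the topology on `X` induced by `d`: the elements of `T` are
exactly the subsets `U` of `X` such that for every `x` in `U` some ball
`{y : d x y < r}`, `r > 0`, is contained in `U`. -/
def Induces {M : Type u} (E : M → M → Prop) (R : M) [Field (Elt E R)]
    [LinearOrder (Elt E R)] {X : M} (d : Elt E X → Elt E X → Elt E R) (T : M) : Prop :=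
  ∀ U : M, E U T ↔ (∀ x, E x U → E x X) ∧
    ∀ x : Elt E X, E x.1 U → ∃ r : Elt E R, 0 < r ∧ ∀ y : Elt E X, d x y < r → E y.1 U

/-- `(X, T)` is quasi-metrizable in the model (with respect to the real line `R`). -/
def QuasiMetrizable {M : Type u} (E : M → M → Prop) (R : M) [Field (Elt E R)]
    [LinearOrder (Elt E R)] (X T : M) : Prop :=
  ∃ d : Elt E X → Elt E X → Elt E R, IsQuasiMetric E R d ∧ Induces E R d T

/-- `(X, T)` is metrizable in the model (with respect to the real line `R`). -/
def Metrizable {M : Type u} (E : M → M → Prop) (R : M) [Field (Elt E R)]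
    [LinearOrder (Elt E R)] (X T : M) : Prop :=
  ∃ d : Elt E X → Elt E X → Elt E R, IsQuasiMetric E R d ∧ (∀ x y, d x y = d y x) ∧
    Induces E R d T

/-- `(X, T)` is compact in the model: every open cover has a finite subcover. -/
def IsCompactSp {M : Type u} (E : M → M → Prop) (X T : M) : Prop :=
  ∀ c : M, (∀ U, E U c → E U T) → (∀ x, E x X → ∃ U, E U c ∧ E x U) →
    ∃ f : M, (∀ U, E U f → E U c) ∧ IsFinite E f ∧ ∀ x, E x X → ∃ U, E U f ∧ E x U

/-- `(X, T)` is Hausdorff in the model. -/
def IsHausdorffSp {M : Type u} (E : M → M → Prop) (X T : M) : Prop :=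
  ∀ x y, E x X → E y X → x ≠ y →
    ∃ U V, E U T ∧ E V T ∧ E x U ∧ E y V ∧ ∀ z, ¬ (E z U ∧ E z V)

end Pool.Agent.MP_dae09c_lc
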