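import Mathlib
import Pool.Agent.MP_dae09c_lc.Defs

/-!
# Definability with parameters: typed contexts and closure properties
-/

set_option autoImplicit false

universe u

namespace Pool.Agent.MP_dae09c_lc

variable {M : Type u} (E : M → M → Prop)

/-! ### Renaming of variables -/

/-- lifting a renaming under a binder -/
def liftR {n m : ℕ} (f : Fin n → Fin m) : Fin (n + 1) → Fin (m + 1) :=
  Fin.snoc (α := fun _ => Fin (m + 1)) (fun i => (f i).castSucc) (Fin.last m)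

/-- renaming the free variables -/
def Fml.ren : {n m : ℕ} → (Fin n → Fin m) → Fml M n → Fml M m
  | _, _, f, .mem s t => .mem (Sum.map f id s) (Sum.map f id t)
  | _, _, f, .eq s t => .eq (Sum.map f id s) (Sum.map f id t)
  | _, _, f, .neg φ => .neg (φ.ren f)
  | _, _, f, .and φ ψ => .and (φ.ren f) (ψ.ren f)
  | _, _, f, .all φ => .all (φ.ren (liftR f))

theorem val_map {n m : ℕ} (f : Fin n → Fin m) (v : Fin m → M) (s : Fin n ⊕ M) :
    Sum.elim v id (Sum.map f id s) = Sum.elim (v ∘ f) id s := by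
  cases s <;> rfl

theorem snoc_lift {n m : ℕ} (f : Fin n → Fin m) (v : Fin m → M) (x : M) :
    (Fin.snoc (α := fun _ => M) v x) ∘ liftR f = Fin.snoc (α := fun _ => M) (v ∘ f) x := by
  funext i
  refine Fin.lastCases ?_ (fun i => ?_) i
  · simp [liftR]
  · simp [liftR]

theorem sat_ren : ∀ {n m : ℕ} (f : Fin n → Fin m) (φ : Fml M n) (v : Fin m → M),
    (φ.ren f).Sat E v ↔ φ.Sat E (v ∘ f)
  | _, _, f, .mem s t, v => by simp only [Fml.ren, Fml.Sat, val_map]
  | _, _, f, .eq s t, v => by simp only [Fml.ren, Fml.Sat, val_map]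
  | _, _, f, .neg φ, v => by simp only [Fml.ren, Fml.Sat, sat_ren f φ]
  | _, _, f, .and φ ψ, v => by simp only [Fml.ren, Fml.Sat, sat_ren f φ, sat_ren f ψ]
  | _, _, f, .all φ, v => by
      simp only [Fml.ren, Fml.Sat]
      refine forall_congr' fun x => ?_
      rw [sat_ren (liftR f) φ, snoc_lift]

/-! ### Types and contexts -/

/-- types whose elements are coded by elements of `M`, with definable range -/
class DType (A : Type u) where
  emb : A → M
  inj : Function.Injective emb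
  rng : ∃ φ : Fml M 1, ∀ v : Fin 1 → M, φ.Sat E v ↔ ∃ a, emb a = v 0

instance : DType E M where
  emb := id
  inj := Function.injective_id
  rng := ⟨.eq (.inl 0) (.inl 0), fun v => by simp [Fml.Sat]⟩

instance (a : M) : DType E (Elt E a) where
  emb := Subtype.val
  inj := Subtype.val_injective
  rng := ⟨.mem (.inl 0) (.inr a), fun v =>
    ⟨fun h => ⟨⟨v 0, h⟩, rfl⟩, fun ⟨b, hb⟩ => by
      have h : E b.1 a := b.2
      rw [hb] at h
      exact h⟩⟩

/-- contexts -/
class Ctx {M : Type u} (E : M → M → Prop) (Γ : Type u) where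
  n : ℕ
  env : Γ → Fin n → M

instance : Ctx E PUnit.{u + 1} where
  n := 0
  env := fun _ => Fin.elim0

instance (Γ A : Type u) [Ctx E Γ] [DType E A] : Ctx E (Γ × A) where
  n := Ctx.n E Γ + 1
  env := fun p => Fin.snoc (α := fun _ => M) (Ctx.env (E := E) p.1) (DType.emb E p.2)

/-- a predicate on a context is definable with parameters -/
class Dfn {Γ : Type u} [Ctx E Γ] (P : Γ → Prop) : Prop where
  out : ∃ φ : Fml M (Ctx.n E Γ), ∀ γ, φ.Sat E (Ctx.env (E := E) γ) ↔ P γ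

/-- a function on a context is definable with parameters -/
class DFun {Γ A : Type u} [Ctx E Γ] [DType E A] (f : Γ → A) : Prop where
  out : Dfn E (fun p : Γ × M => p.2 = DType.emb E (f p.1))

/-- projections between contexts -/
class IsProj {Γ Δ : Type u} [Ctx E Γ] [Ctx E Δ] (f : Γ → Δ) : Prop where
  out : ∃ ι : Fin (Ctx.n E Δ) → Fin (Ctx.n E Γ), ∀ γ,
    Ctx.env (E := E) (f γ) = Ctx.env (E := E) γ ∘ ι

/-- variables -/
class IsVar {Γ A : Type u} [Ctx E Γ] [DType E A] (f : Γ → A) : Prop where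
  out : ∃ i : Fin (Ctx.n E Γ), ∀ γ, DType.emb E (f γ) = Ctx.env (E := E) γ i

section closure

variable {Γ Δ Θ A B C D : Type u} [Ctx E Γ] [Ctx E Δ] [Ctx E Θ]
  [DType E A] [DType E B] [DType E C] [DType E D]

omit [Ctx E Δ] in
theorem Dfn.congr' {P Q : Γ → Prop} (h : ∀ γ, P γ ↔ Q γ) (hP : Dfn E P) : Dfn E Q := by
  have : P = Q := funext fun γ => propext (h γ)
  rwa [← this]

instance Dfn.not {P : Γ → Prop} [h : Dfn E P] : Dfn E (fun γ => ¬ P γ) := by
  obtain ⟨φ, hφ⟩ := h.out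
  exact ⟨.neg φ, fun γ => by rw [Fml.Sat, hφ]⟩

instance Dfn.and {P Q : Γ → Prop} [h : Dfn E P] [h' : Dfn E Q] : Dfn E (fun γ => P γ ∧ Q γ) := by
  obtain ⟨φ, hφ⟩ := h.out
  obtain ⟨ψ, hψ⟩ := h'.out
  exact ⟨.and φ ψ, fun γ => by rw [Fml.Sat, hφ, hψ]⟩

instance Dfn.or {P Q : Γ → Prop} [Dfn E P] [Dfn E Q] : Dfn E (fun γ => P γ ∨ Q γ) :=
  Dfn.congr' E (P := fun γ => ¬ (¬ P γ ∧ ¬ Q γ)) (fun γ => by tauto) inferInstance

instance Dfn.imp {P Q : Γ → Prop} [Dfn E P] [Dfn E Q] : Dfn E (fun γ => P γ → Q γ) :=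
  Dfn.congr' E (P := fun γ => ¬ (P γ ∧ ¬ Q γ)) (fun γ => by tauto) inferInstance

instance Dfn.iff {P Q : Γ → Prop} [Dfn E P] [Dfn E Q] : Dfn E (fun γ => P γ ↔ Q γ) :=
  Dfn.congr' E (P := fun γ => (P γ → Q γ) ∧ (Q γ → P γ)) (fun γ => by tauto) inferInstance

instance Dfn.all {P : Γ → A → Prop} [h : Dfn E (fun p : Γ × A => P p.1 p.2)] :
    Dfn E (fun γ => ∀ a, P γ a) := by
  obtain ⟨φ, hφ⟩ := h.out
  obtain ⟨ρ, hρ⟩ := DType.rng (E := E) (A := A)
  refine ⟨.all (.neg (.and (ρ.ren (fun _ => Fin.last _)) (.neg φ))), fun γ => ?_⟩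
  simp only [Fml.Sat, sat_ren, hρ]
  constructor
  · intro H a
    by_contra hc
    refine H (DType.emb E a) ⟨⟨a, ?_⟩, fun hs => hc ((hφ (γ, a)).mp hs)⟩
    simp
  · rintro H x ⟨⟨a, ha⟩, hx⟩
    have hax : DType.emb E a = x := by simpa using ha
    subst hax
    exact hx ((hφ (γ, a)).mpr (H a))

instance Dfn.ex {P : Γ → A → Prop} [Dfn E (fun p : Γ × A => P p.1 p.2)] :
    Dfn E (fun γ => ∃ a, P γ a) :=
  Dfn.congr' E (P := fun γ => ¬ ∀ a, ¬ P γ a) (fun γ => by simp) inferInstance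

instance Dfn.const (c : Prop) : Dfn E (fun _ : Γ => c) := by
  obtain ⟨φ, hφ⟩ : ∃ φ : Fml M (Ctx.n E Γ), ∀ v, φ.Sat E v ↔ c := by
    by_cases hM : Nonempty M
    · obtain ⟨m⟩ := hM
      by_cases hc : c
      · exact ⟨.eq (.inr m) (.inr m), fun v => by simp [Fml.Sat, hc]⟩
      · exact ⟨.neg (.eq (.inr m) (.inr m)), fun v => by simp [Fml.Sat, hc]⟩
    · by_cases hc : c
      · refine ⟨.all (.eq (.inl (Fin.last _)) (.inl (Fin.last _))), fun v => ?_⟩
        simp [Fml.Sat, hc]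
      · refine ⟨.neg (.all (.eq (.inl (Fin.last _)) (.inl (Fin.last _)))), fun v => ?_⟩
        simp [Fml.Sat, hc]
  exact ⟨φ, fun γ => hφ _⟩

/-! projections and variables -/

instance (priority := 3000) IsProj.id : IsProj E (fun γ : Γ => γ) := ⟨_root_.id, fun _ => rfl⟩

instance (priority := 2000) IsProj.fst {f : Γ → Δ × A} [h : IsProj E f] : IsProj E (fun γ => (f γ).1) := by
  obtain ⟨ι, hι⟩ := h.out
  refine ⟨fun i => ι i.castSucc, fun γ => ?_⟩
  funext i
  have := congrFun (hι γ) i.castSucc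
  simpa [Ctx.env] using this

instance IsVar.snd {f : Γ → Δ × A} [h : IsProj E f] : IsVar E (fun γ => (f γ).2) := by
  obtain ⟨ι, hι⟩ := h.out
  refine ⟨ι (Fin.last _), fun γ => ?_⟩
  have := congrFun (hι γ) (Fin.last _)
  simpa [Ctx.env] using this

theorem IsProj.unit : IsProj E (fun _ : Γ => PUnit.unit.{u + 1}) :=
  ⟨Fin.elim0, fun γ => by funext i; exact i.elim0⟩

theorem IsProj.pair {f : Γ → Δ} {g : Γ → A} (h : IsProj E f) (h' : IsVar E g) :
    IsProj E (fun γ => (f γ, g γ)) := by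
  obtain ⟨ι, hι⟩ := h.out
  obtain ⟨j, hj⟩ := h'.out
  refine ⟨Fin.snoc (α := fun _ => Fin (Ctx.n E Γ)) ι j, fun γ => ?_⟩
  funext i
  refine Fin.lastCases ?_ (fun i => ?_) i
  · simp [Ctx.env, hj]
  · have := congrFun (hι γ) i
    simpa [Ctx.env] using this

theorem Dfn.ren {P : Δ → Prop} (h : Dfn E P) {f : Γ → Δ} (hf : IsProj E f) :
    Dfn E (fun γ => P (f γ)) := by
  obtain ⟨φ, hφ⟩ := h.out
  obtain ⟨ι, hι⟩ := hf.out
  exact ⟨φ.ren ι, fun γ => by rw [sat_ren, ← hι, hφ]⟩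

theorem DFun.ren {g : Δ → A} (h : DFun E g) {f : Γ → Δ} (hf : IsProj E f) :
    DFun E (fun γ => g (f γ)) := by
  refine ⟨?_⟩
  have : IsProj E (fun p : Γ × M => (f p.1, p.2)) := by
    have h1 : IsProj E (fun p : Γ × M => f p.1) := by
      obtain ⟨ι, hι⟩ := hf.out
      refine ⟨fun i => (ι i).castSucc, fun p => ?_⟩
      funext i
      have := congrFun (hι p.1) i
      simpa [Ctx.env] using this
    exact h1.pair E inferInstance
  exact h.out.ren E this

instance (priority := 2000) DFun.var {f : Γ → A} [h : IsVar E f] : DFun E f := by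
  obtain ⟨j, hj⟩ := h.out
  refine ⟨⟨.eq (.inl (Fin.last _)) (.inl j.castSucc), fun p => ?_⟩⟩
  simp [Fml.Sat, Ctx.env, DType.emb, hj]

instance (priority := 1900) DFun.const (a : A) : DFun E (fun _ : Γ => a) := by
  refine ⟨⟨.eq (.inl (Fin.last _)) (.inr (DType.emb E a)), fun p => ?_⟩⟩
  simp [Fml.Sat, Ctx.env, DType.emb]

/-- typed graphs -/
theorem DFun.graph {f : Γ → A} (h : DFun E f) : Dfn E (fun p : Γ × A => p.2 = f p.1) := by
  obtain ⟨φ, hφ⟩ := h.out.out
  refine ⟨φ, fun p => ?_⟩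
  have := hφ (p.1, DType.emb E p.2)
  simp only at this
  rw [(DType.inj (E := E) (A := A)).eq_iff] at this
  exact this

theorem DFun.of_graph {f : Γ → A} (h : Dfn E (fun p : Γ × A => p.2 = f p.1)) : DFun E f := by
  obtain ⟨φ, hφ⟩ := h.out
  obtain ⟨ρ, hρ⟩ := DType.rng (E := E) (A := A)
  refine ⟨⟨.and (ρ.ren (fun _ => Fin.last _)) φ, fun p => ?_⟩⟩
  simp only [Fml.Sat, sat_ren, hρ]
  constructor
  · rintro ⟨⟨a, ha⟩, h2⟩
    have hax : DType.emb E a = p.2 := by simpa [Ctx.env, DType.emb] using ha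
    have h3 := (hφ (p.1, a)).mp (by
      have : Ctx.env (E := E) (p.1, a) = Ctx.env (E := E) p := by
        show Fin.snoc (α := fun _ => M) _ (DType.emb E a) =
          Fin.snoc (α := fun _ => M) _ (DType.emb E p.2)
        rw [hax]; rfl
      rw [this]; exact h2)
    simp only at h3
    rw [← hax, h3]
  · intro hp
    refine ⟨⟨f p.1, by simp [Ctx.env, DType.emb, hp]⟩, ?_⟩
    have h3 := (hφ (p.1, f p.1)).mpr rfl
    have : Ctx.env (E := E) (p.1, f p.1) = Ctx.env (E := E) p := by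
      show Fin.snoc (α := fun _ => M) _ (DType.emb E (f p.1)) =
        Fin.snoc (α := fun _ => M) _ (DType.emb E p.2)
      rw [hp]; rfl
    rw [← this]; exact h3

/-- substitution into a unary relation -/
theorem Dfn.comp₁ {R : A → Prop} (hR : Dfn E (fun p : PUnit.{u + 1} × A => R p.2))
    {f : Γ → A} (hf : DFun E f) : Dfn E (fun γ => R (f γ)) := by
  have h1 : Dfn E (fun p : Γ × A => R p.2) :=
    hR.ren E (f := fun p : Γ × A => (PUnit.unit, p.2)) ((IsProj.unit E).pair E inferInstance)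
  have h2 : Dfn E (fun p : Γ × A => p.2 = f p.1) := hf.graph E
  exact Dfn.congr' E (P := fun γ => ∃ a, a = f γ ∧ R a) (fun γ => by simp) inferInstance

theorem Dfn.comp₂ {R : A → B → Prop}
    (hR : Dfn E (fun p : (PUnit.{u + 1} × A) × B => R p.1.2 p.2))
    {f : Γ → A} {g : Γ → B} (hf : DFun E f) (hg : DFun E g) :
    Dfn E (fun γ => R (f γ) (g γ)) := by
  have h1 : Dfn E (fun p : (Γ × A) × B => R p.1.2 p.2) :=
    hR.ren E (f := fun p : (Γ × A) × B => ((PUnit.unit, p.1.2), p.2))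
      (((IsProj.unit E).pair E inferInstance).pair E inferInstance)
  have h2 : Dfn E (fun p : Γ × A => p.2 = f p.1) := hf.graph E
  have h3 : Dfn E (fun p : (Γ × A) × B => p.2 = g p.1.1) :=
    (hg.ren E (f := fun p : Γ × A => p.1) inferInstance).graph E
  exact Dfn.congr' E (P := fun γ => ∃ a, a = f γ ∧ ∃ b, b = g γ ∧ R a b) (fun γ => by simp)
    inferInstance

theorem Dfn.comp₃ {R : A → B → C → Prop}
    (hR : Dfn E (fun p : ((PUnit.{u + 1} × A) × B) × C => R p.1.1.2 p.1.2 p.2))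
    {f : Γ → A} {g : Γ → B} {h : Γ → C} (hf : DFun E f) (hg : DFun E g) (hh : DFun E h) :
    Dfn E (fun γ => R (f γ) (g γ) (h γ)) := by
  have h1 : Dfn E (fun p : ((Γ × A) × B) × C => R p.1.1.2 p.1.2 p.2) :=
    hR.ren E (f := fun p : ((Γ × A) × B) × C => (((PUnit.unit, p.1.1.2), p.1.2), p.2))
      ((((IsProj.unit E).pair E inferInstance).pair E inferInstance).pair E inferInstance)
  have h2 : Dfn E (fun p : Γ × A => p.2 = f p.1) := hf.graph E
  have h3 : Dfn E (fun p : (Γ × A) × B => p.2 = g p.1.1) :=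
    (hg.ren E (f := fun p : Γ × A => p.1) inferInstance).graph E
  have h4 : Dfn E (fun p : ((Γ × A) × B) × C => p.2 = h p.1.1.1) :=
    (hh.ren E (f := fun p : (Γ × A) × B => p.1.1) inferInstance).graph E
  exact Dfn.congr' E (P := fun γ => ∃ a, a = f γ ∧ ∃ b, b = g γ ∧ ∃ c, c = h γ ∧ R a b c)
    (fun γ => by simp) inferInstance

set_option synthInstance.maxSize 4000 in
theorem Dfn.comp₄ {R : A → B → C → D → Prop}
    (hR : Dfn E (fun p : (((PUnit.{u + 1} × A) × B) × C) × D => R p.1.1.1.2 p.1.1.2 p.1.2 p.2))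
    {f : Γ → A} {g : Γ → B} {h : Γ → C} {k : Γ → D} (hf : DFun E f) (hg : DFun E g)
    (hh : DFun E h) (hk : DFun E k) :
    Dfn E (fun γ => R (f γ) (g γ) (h γ) (k γ)) := by
  have h1 : Dfn E (fun p : (((Γ × A) × B) × C) × D => R p.1.1.1.2 p.1.1.2 p.1.2 p.2) :=
    hR.ren E (f := fun p : (((Γ × A) × B) × C) × D =>
      ((((PUnit.unit, p.1.1.1.2), p.1.1.2), p.1.2), p.2))
      (((((IsProj.unit E).pair E inferInstance).pair E inferInstance).pair E
        inferInstance).pair E inferInstance)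
  have h2 : Dfn E (fun p : Γ × A => p.2 = f p.1) := hf.graph E
  have h3 : Dfn E (fun p : (Γ × A) × B => p.2 = g p.1.1) :=
    (hg.ren E (f := fun p : Γ × A => p.1) inferInstance).graph E
  have h4 : Dfn E (fun p : ((Γ × A) × B) × C => p.2 = h p.1.1.1) :=
    (hh.ren E (f := fun p : (Γ × A) × B => p.1.1) inferInstance).graph E
  have h5 : Dfn E (fun p : (((Γ × A) × B) × C) × D => p.2 = k p.1.1.1.1) :=
    (hk.ren E (f := fun p : ((Γ × A) × B) × C => p.1.1.1) inferInstance).graph E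
  exact Dfn.congr' E
    (P := fun γ => ∃ a, a = f γ ∧ ∃ b, b = g γ ∧ ∃ c, c = h γ ∧ ∃ d, d = k γ ∧ R a b c d)
    (fun γ => by simp) inferInstance

/-! atomic relations -/

instance Dfn.mem {f g : Γ → M} [hf : DFun E f] [hg : DFun E g] :
    Dfn E (fun γ => E (f γ) (g γ)) := by
  refine Dfn.comp₂ E (R := fun a b => E a b) ?_ hf hg
  refine ⟨.mem (.inl 0) (.inl 1), fun p => ?_⟩
  rfl

instance Dfn.eq {f g : Γ → A} [hf : DFun E f] [hg : DFun E g] :
    Dfn E (fun γ => f γ = g γ) := by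
  refine Dfn.comp₂ E (R := fun a b => a = b) ?_ hf hg
  refine ⟨.eq (.inl 0) (.inl 1), fun p => ?_⟩
  exact (DType.inj (E := E) (A := A)).eq_iff

instance DFun.val {a : M} {f : Γ → Elt E a} [hf : DFun E f] : DFun E (fun γ => (f γ).1) :=
  ⟨hf.out⟩

end closure

end Pool.Agent.MP_dae09c_lc
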