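import Mathlib
import Pool.Agent.MP_dae09c_lc.Dfn

/-!
# Basic set theory inside a model of ZF
-/

set_option autoImplicit false
set_option synthInstance.maxSize 4000

universe u

namespace Pool.Agent.MP_dae09c_lc

variable {M : Type u} {E : M → M → Prop}

instance Dfn.isPair {Γ : Type u} [Ctx E Γ] {f g h : Γ → M} [hf : DFun E f] [hg : DFun E g]
    [hh : DFun E h] : Dfn E (fun γ => IsPair E (f γ) (g γ) (h γ)) := by
  refine Dfn.comp₃ E (R := fun a b c => IsPair E a b c) ?_ hf hg hh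
  unfold IsPair
  infer_instance

/-- typed separation -/
theorem sep (hM : IsModelZF E) {A : M} (P : Elt E A → Prop)
    (h : Dfn E (fun p : PUnit.{u + 1} × Elt E A => P p.2)) :
    ∃ s, (∀ x, E x s → E x A) ∧ ∀ a : Elt E A, E a.1 s ↔ P a := by
  obtain ⟨φ, hφ⟩ := h.out
  obtain ⟨b, hb⟩ := hM.separation φ A
  refine ⟨b, fun x hx => ((hb x).mp hx).1, fun a => ?_⟩
  rw [hb]
  have h1 := hφ (PUnit.unit, a)
  have h2 : Ctx.env (E := E) ((PUnit.unit, a) : PUnit.{u + 1} × Elt E A) = fun _ => a.1 := by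
    funext i
    have : i = Fin.last 0 := Subsingleton.elim (α := Fin 1) _ _
    rw [this]
    exact Fin.snoc_last (α := fun _ => M) _ _
  rw [h2] at h1
  constructor
  · rintro ⟨_, h3⟩
    exact h1.mp h3
  · intro h3
    exact ⟨a.2, h1.mpr h3⟩

/-! ### Ordered pairs -/

theorem exists_single (hM : IsModelZF E) (a b : M) : ∃ z, ∀ w, E w z ↔ w = a ∨ w = b :=
  hM.pairing a b

theorem exists_pair (hM : IsModelZF E) (a b : M) : ∃ p, IsPair E p a b := by
  obtain ⟨s, hs⟩ := hM.pairing a a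
  obtain ⟨t, ht⟩ := hM.pairing a b
  obtain ⟨p, hp⟩ := hM.pairing s t
  refine ⟨p, fun z => ?_⟩
  rw [hp]
  constructor
  · rintro (rfl | rfl)
    · left; intro w; rw [hs]; tauto
    · right; exact ht
  · rintro (h | h)
    · left
      apply hM.extensionality
      intro x; rw [h, hs]; tauto
    · right
      apply hM.extensionality
      intro x; rw [h, ht]

theorem pair_ext (hM : IsModelZF E) {p q a b : M} (h : IsPair E p a b) (h' : IsPair E q a b) :
    p = q := hM.extensionality _ _ fun x => by rw [h x, h' x]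

theorem pair_inj (hM : IsModelZF E) {p a b a' b' : M} (h : IsPair E p a b)
    (h' : IsPair E p a' b') : a = a' ∧ b = b' := by
  have key : ∀ {p a b a' b' : M}, IsPair E p a b → IsPair E p a' b' → a = a' := by
    intro p a b a' b' h h'
    obtain ⟨s, hs⟩ := hM.pairing a a
    have h1 : E s p := (h s).mpr (Or.inl fun w => by rw [hs]; tauto)
    rcases (h' s).mp h1 with h2 | h2
    · have := (h2 a).mp ((hs a).mpr (Or.inl rfl))
      exact this
    · have := (hs a').mp ((h2 a').mpr (Or.inl rfl))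
      tauto
  have ha := key h h'
  subst ha
  refine ⟨rfl, ?_⟩
  obtain ⟨t, ht⟩ := hM.pairing a b
  obtain ⟨t', ht'⟩ := hM.pairing a b'
  have h1 : E t p := (h t).mpr (Or.inr ht)
  have h2 : E t' p := (h' t').mpr (Or.inr ht')
  have h3 : b = a ∨ b = b' := by
    rcases (h' t).mp h1 with h3 | h3
    · exact Or.inl ((h3 b).mp ((ht b).mpr (Or.inr rfl)))
    · exact (h3 b).mp ((ht b).mpr (Or.inr rfl))
  have h4 : b' = a ∨ b' = b := by
    rcases (h t').mp h2 with h3 | h3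
    · exact Or.inl ((h3 b').mp ((ht' b').mpr (Or.inr rfl)))
    · exact (h3 b').mp ((ht' b').mpr (Or.inr rfl))
  rcases h3 with h3 | h3
  · rcases h4 with h4 | h4
    · rw [h3, h4]
    · exact h4.symm
  · exact h3

/-- binary unions -/
theorem exists_cup (hM : IsModelZF E) (a b : M) : ∃ c, ∀ x, E x c ↔ E x a ∨ E x b := by
  obtain ⟨p, hp⟩ := hM.pairing a b
  obtain ⟨c, hc⟩ := hM.union p
  refine ⟨c, fun x => ?_⟩
  rw [hc]
  constructor
  · rintro ⟨y, hy, hx⟩
    rcases (hp y).mp hy with rfl | rfl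
    · exact Or.inl hx
    · exact Or.inr hx
  · rintro (h | h)
    · exact ⟨a, (hp a).mpr (Or.inl rfl), h⟩
    · exact ⟨b, (hp b).mpr (Or.inr rfl), h⟩

theorem exists_empty (hM : IsModelZF E) : ∃ e, ∀ x, ¬ E x e := by
  obtain ⟨w, ⟨e, -, he⟩, -⟩ := hM.infinity
  exact ⟨e, he⟩

/-- products -/
theorem exists_prod (hM : IsModelZF E) (A B : M) :
    ∃ P, ∀ p, E p P ↔ ∃ (a : Elt E A) (b : Elt E B), IsPair E p a.1 b.1 := by
  obtain ⟨U, hU⟩ := exists_cup hM A B
  obtain ⟨PU, hPU⟩ := hM.powerset U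
  obtain ⟨PPU, hPPU⟩ := hM.powerset PU
  obtain ⟨s, hs1, hs2⟩ := sep hM (A := PPU)
    (fun p => ∃ (a : Elt E A) (b : Elt E B), IsPair E p.1 a.1 b.1) inferInstance
  refine ⟨s, fun p => ⟨fun h => (hs2 ⟨p, hs1 p h⟩).mp h, ?_⟩⟩
  rintro ⟨a, b, hp⟩
  have h1 : E p PPU := by
    rw [hPPU]
    intro z hz
    rw [hPU]
    intro w hw
    rw [hU]
    rcases (hp z).mp hz with h2 | h2
    · left
      rw [(h2 w).mp hw]; exact a.2
    · rcases (h2 w).mp hw with h3 | h3
      · left; rw [h3]; exact a.2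
      · right; rw [h3]; exact b.2
  exact (hs2 ⟨p, h1⟩).mpr ⟨a, b, hp⟩

/-- `(a, b) ∈ S` -/
def Mem2 (E : M → M → Prop) (S a b : M) : Prop := ∃ p, IsPair E p a b ∧ E p S

/-- `((a, b), c) ∈ S` -/
def Mem3 (E : M → M → Prop) (S a b c : M) : Prop := ∃ q, IsPair E q a b ∧ Mem2 E S q c

instance Dfn.mem2 {Γ : Type u} [Ctx E Γ] {f g h : Γ → M} [hf : DFun E f] [hg : DFun E g]
    [hh : DFun E h] : Dfn E (fun γ => Mem2 E (f γ) (g γ) (h γ)) := by
  refine Dfn.comp₃ E (R := fun a b c => Mem2 E a b c) ?_ hf hg hh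
  unfold Mem2
  infer_instance

instance Dfn.mem3 {Γ : Type u} [Ctx E Γ] {f g h k : Γ → M} [hf : DFun E f] [hg : DFun E g]
    [hh : DFun E h] [hk : DFun E k] : Dfn E (fun γ => Mem3 E (f γ) (g γ) (h γ) (k γ)) := by
  refine Dfn.comp₄ E (R := fun a b c d => Mem3 E a b c d) ?_ hf hg hh hk
  unfold Mem3
  infer_instance

/-- comprehension for binary relations -/
theorem comp2 (hM : IsModelZF E) {A B : M} (Q : Elt E A → Elt E B → Prop)
    (hQ : Dfn E (fun p : (PUnit.{u + 1} × Elt E A) × Elt E B => Q p.1.2 p.2)) :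
    ∃ S : M, (∀ p, E p S → ∃ (a : Elt E A) (b : Elt E B), IsPair E p a.1 b.1) ∧
      ∀ (a : Elt E A) (b : Elt E B), Mem2 E S a.1 b.1 ↔ Q a b := by
  obtain ⟨P, hP⟩ := exists_prod hM A B
  have hQ' : ∀ {Γ : Type u} [Ctx E Γ] (f : Γ → Elt E A) (g : Γ → Elt E B) [DFun E f] [DFun E g],
      Dfn E (fun γ => Q (f γ) (g γ)) := fun f g _ _ =>
    Dfn.comp₂ E (R := Q) hQ inferInstance inferInstance
  obtain ⟨s, hs1, hs2⟩ := sep hM (A := P)
    (fun p => ∃ (a : Elt E A) (b : Elt E B), IsPair E p.1 a.1 b.1 ∧ Q a b) inferInstance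
  refine ⟨s, fun p hp => (hP p).mp (hs1 p hp), fun a b => ?_⟩
  constructor
  · rintro ⟨p, hp, hps⟩
    obtain ⟨a', b', h1, h2⟩ := (hs2 ⟨p, hs1 p hps⟩).mp hps
    obtain ⟨h3, h4⟩ := pair_inj hM hp h1
    rw [Subtype.ext h3, Subtype.ext h4]
    exact h2
  · intro h
    obtain ⟨p, hp⟩ := exists_pair hM a.1 b.1
    exact ⟨p, hp, (hs2 ⟨p, (hP p).mpr ⟨a, b, hp⟩⟩).mpr ⟨a, b, hp, h⟩⟩

/-- comprehension for ternary relations -/
theorem comp3 (hM : IsModelZF E) {A B C : M} (Q : Elt E A → Elt E B → Elt E C → Prop)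
    (hQ : Dfn E (fun p : ((PUnit.{u + 1} × Elt E A) × Elt E B) × Elt E C =>
      Q p.1.1.2 p.1.2 p.2)) :
    ∃ S : M, (∀ p, E p S → ∃ (a : Elt E A) (b : Elt E B) (q : M) (c : Elt E C),
        IsPair E q a.1 b.1 ∧ IsPair E p q c.1) ∧
      ∀ (a : Elt E A) (b : Elt E B) (c : Elt E C), Mem3 E S a.1 b.1 c.1 ↔ Q a b c := by
  obtain ⟨P, hP⟩ := exists_prod hM A B
  have hQ' : ∀ {Γ : Type u} [Ctx E Γ] (f : Γ → Elt E A) (g : Γ → Elt E B) (h : Γ → Elt E C)
      [DFun E f] [DFun E g] [DFun E h],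
      Dfn E (fun γ => Q (f γ) (g γ) (h γ)) := fun f g h _ _ _ =>
    Dfn.comp₃ E (R := Q) hQ inferInstance inferInstance inferInstance
  obtain ⟨s, hs1, hs2⟩ := comp2 hM (A := P) (B := C)
    (fun p c => ∃ (a : Elt E A) (b : Elt E B), IsPair E p.1 a.1 b.1 ∧ Q a b c) inferInstance
  refine ⟨s, fun p hp => ?_, fun a b c => ?_⟩
  · obtain ⟨q, c, hq⟩ := hs1 p hp
    obtain ⟨a, b, hab⟩ := (hP q.1).mp q.2
    exact ⟨a, b, q.1, c, hab, hq⟩
  constructor
  · rintro ⟨q, hq, hqs⟩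
    obtain ⟨a', b', h1, h2⟩ := (hs2 ⟨q, (hP q).mpr ⟨a, b, hq⟩⟩ c).mp hqs
    obtain ⟨h3, h4⟩ := pair_inj hM hq h1
    rw [Subtype.ext h3, Subtype.ext h4]
    exact h2
  · intro h
    obtain ⟨q, hq⟩ := exists_pair hM a.1 b.1
    exact ⟨q, hq, (hs2 ⟨q, (hP q).mpr ⟨a, b, hq⟩⟩ c).mpr ⟨a, b, hq, h⟩⟩

/-- a coded binary function is a definable function -/
theorem DFun.of_graph₂ (hM : IsModelZF E) {A B C f : M} {F : Elt E A → Elt E B → Elt E C}
    (hf : IsGraph₂ E f F) {Γ : Type u} [Ctx E Γ] (g : Γ → Elt E A) (h : Γ → Elt E B)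
    [hg : DFun E g] [hh : DFun E h] : DFun E (fun γ => F (g γ) (h γ)) := by
  apply DFun.of_graph
  have key : ∀ (a : Elt E A) (b : Elt E B) (c : Elt E C), c = F a b ↔ Mem3 E f a.1 b.1 c.1 := by
    intro a b c
    constructor
    · rintro rfl
      obtain ⟨q, hq⟩ := exists_pair hM a.1 b.1
      obtain ⟨p, hp⟩ := exists_pair hM q (F a b).1
      exact ⟨q, hq, p, hp, (hf p).mpr ⟨a, b, q, hq, hp⟩⟩
    · rintro ⟨q, hq, p, hp, hpf⟩
      obtain ⟨a', b', q', h1, h2⟩ := (hf p).mp hpf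
      obtain ⟨h3, h4⟩ := pair_inj hM hp h2
      subst h3
      obtain ⟨h5, h6⟩ := pair_inj hM hq h1
      rw [Subtype.ext h5, Subtype.ext h6]
      exact Subtype.ext h4
  have h1 : DFun E (fun p : Γ × Elt E C => g p.1) := hg.ren E inferInstance
  have h2 : DFun E (fun p : Γ × Elt E C => h p.1) := hh.ren E inferInstance
  exact Dfn.congr' E (P := fun p : Γ × Elt E C => Mem3 E f (g p.1).1 (h p.1).1 p.2.1)
    (fun p => (key _ _ _).symm) inferInstance

/-- a coded binary relation is definable -/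
theorem Dfn.of_rel (hM : IsModelZF E) {A B f : M} {F : Elt E A → Elt E B → Prop}
    (hf : IsRel E f F) {Γ : Type u} [Ctx E Γ] (g : Γ → Elt E A) (h : Γ → Elt E B)
    [hg : DFun E g] [hh : DFun E h] : Dfn E (fun γ => F (g γ) (h γ)) := by
  have key : ∀ (a : Elt E A) (b : Elt E B), F a b ↔ Mem2 E f a.1 b.1 := by
    intro a b
    constructor
    · intro hab
      obtain ⟨p, hp⟩ := exists_pair hM a.1 b.1
      exact ⟨p, hp, (hf p).mpr ⟨a, b, hp, hab⟩⟩
    · rintro ⟨p, hp, hpf⟩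
      obtain ⟨a', b', h1, h2⟩ := (hf p).mp hpf
      obtain ⟨h3, h4⟩ := pair_inj hM hp h1
      rw [Subtype.ext h3, Subtype.ext h4]
      exact h2
  exact Dfn.congr' E (P := fun γ => Mem2 E f (g γ).1 (h γ).1)
    (fun γ => (key _ _).symm) inferInstance

/-! ### Compactness as an induction principle -/

/-- If a definable property of sets holds for the empty set, is preserved by binary unions and
every point of a compact space has an open neighbourhood with the property, then some set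
containing the whole space has the property. -/
theorem compact_induction (hM : IsModelZF E) {X T : M} (hc : IsCompactSp E X T) (P : M → Prop)
    (hP : Dfn E (fun p : PUnit.{u + 1} × M => P p.2))
    (h0 : ∀ e, (∀ x, ¬ E x e) → P e)
    (hU : ∀ U V W, (∀ x, E x W ↔ E x U ∨ E x V) → P U → P V → P W)
    (hloc : ∀ x, E x X → ∃ U, E U T ∧ E x U ∧ P U) :
    ∃ W, (∀ x, E x X → E x W) ∧ P W := by
  have hP' : ∀ {Γ : Type u} [Ctx E Γ] (f : Γ → M) [DFun E f], Dfn E (fun γ => P (f γ)) :=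
    fun f _ => Dfn.comp₁ E (R := P) hP inferInstance
  -- the cover
  obtain ⟨c, hc1, hc2⟩ := sep hM (A := T) (fun U => P U.1) inferInstance
  obtain ⟨f, hf1, hf2, hf3⟩ := hc c hc1 (fun x hx => by
    obtain ⟨U, hU1, hU2, hU3⟩ := hloc x hx
    exact ⟨U, (hc2 ⟨U, hU1⟩).mpr hU3, hU2⟩)
  have hfP : ∀ U, E U f → P U := fun U hU => (hc2 ⟨U, hc1 U (hf1 U hU)⟩).mp (hf1 U hU)
  obtain ⟨n, hn, F, g, hg⟩ := hf2
  -- induction along the natural numbers of the model
  have key : ∀ k : Elt E n, ∀ V, Mem2 E g k.1 V ↔ (F k).1 = V := by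
    intro k V
    constructor
    · rintro ⟨p, hp, hpg⟩
      obtain ⟨a, ha⟩ := (hg p).mp hpg
      obtain ⟨h1, h2⟩ := pair_inj hM hp ha
      rw [Subtype.ext h1]; exact h2.symm
    · rintro rfl
      obtain ⟨p, hp⟩ := exists_pair hM k.1 (F k).1
      exact ⟨p, hp, (hg p).mpr ⟨k, hp⟩⟩
  let Q : M → Prop := fun m => (∀ k, E k m → E k n) →
    ∃ U, (∀ x, E x U ↔ ∃ k, E k m ∧ ∃ V, Mem2 E g k V ∧ E x V) ∧ P U
  obtain ⟨w, ⟨e, hew, he⟩, hwsucc⟩ := hM.infinity
  obtain ⟨s, hs1, hs2⟩ := sep hM (A := w) (fun m => Q m.1) inferInstance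
  have hns : E n s := by
    apply hn s
    · intro e' he'
      have : e' = e := hM.extensionality _ _ fun x => ⟨fun h => absurd h (he' x), fun h => absurd h (he x)⟩
      subst this
      refine (hs2 ⟨e', hew⟩).mpr fun _ => ⟨e', fun x => ?_, h0 e' he'⟩
      constructor
      · intro h; exact absurd h (he' x)
      · rintro ⟨k, hk, _⟩; exact absurd hk (he' k)
    · intro x y hx hy
      have hxw := hs1 x hx
      obtain ⟨y', hy'w, hy'⟩ := hwsucc x hxw
      have : y = y' := hM.extensionality _ _ fun z => by rw [hy, hy']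
      subst this
      refine (hs2 ⟨y, hy'w⟩).mpr fun hyn => ?_
      obtain ⟨U, hU1, hU2⟩ := (hs2 ⟨x, hxw⟩).mp hx (fun k hk => hyn k ((hy k).mpr (Or.inl hk)))
      have hxn : E x n := hyn x ((hy x).mpr (Or.inr rfl))
      obtain ⟨W, hW⟩ := exists_cup hM U (F ⟨x, hxn⟩).1
      refine ⟨W, fun z => ?_, hU U _ W hW hU2 (hfP _ (F ⟨x, hxn⟩).2)⟩
      rw [hW, hU1]
      constructor
      · rintro (⟨k, hk, V, hV, hz⟩ | hz)
        · exact ⟨k, (hy k).mpr (Or.inl hk), V, hV, hz⟩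
        · exact ⟨x, (hy x).mpr (Or.inr rfl), _, (key ⟨x, hxn⟩ _).mpr rfl, hz⟩
      · rintro ⟨k, hk, V, hV, hz⟩
        rcases (hy k).mp hk with h1 | rfl
        · exact Or.inl ⟨k, h1, V, hV, hz⟩
        · right
          rw [(key ⟨k, hxn⟩ V).mp hV]
          exact hz
  obtain ⟨U, hU1, hU2⟩ := (hs2 ⟨n, hs1 n hns⟩).mp hns (fun _ h => h)
  refine ⟨U, fun x hx => ?_, hU2⟩
  obtain ⟨V, hV1, hV2⟩ := hf3 x hx
  rw [hU1]
  obtain ⟨k, hk⟩ := F.surjective ⟨V, hV1⟩
  exact ⟨k.1, k.2, V, (key k V).mpr (by rw [hk]), hV2⟩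

end Pool.Agent.MP_dae09c_lc
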