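import Mathlib
import Pool.Agent.MP_dae09c_lc.Basic

/-!
# The metrization lemma inside a model of ZF, without recursion
-/

set_option autoImplicit false
set_option synthInstance.maxSize 100000
set_option synthInstance.maxHeartbeats 4000000

universe u

namespace Pool.Agent.MP_dae09c_lc

variable {M : Type u} {E : M → M → Prop} {R : M} [Field (Elt E R)] [LinearOrder (Elt E R)]

instance ordered_inst [hR : Fact (IsRealLine E R)] : IsStrictOrderedRing (Elt E R) :=
  hR.out.ordered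

section inst

/-- the addition is coded -/
class CodedAdd (E : M → M → Prop) (R : M) (iA : Add (Elt E R)) : Prop where
  out : ∃ f : M, IsGraph₂ E f (fun a b : Elt E R => iA.add a b)

/-- the order is coded -/
class CodedLE (E : M → M → Prop) (R : M) (iL : LE (Elt E R)) : Prop where
  out : ∃ f : M, IsRel E f (fun a b : Elt E R => iL.le a b)

instance [hR : Fact (IsRealLine E R)] : CodedAdd E R Distrib.toAdd := ⟨hR.out.add⟩

instance [hR : Fact (IsRealLine E R)] : CodedLE E R Preorder.toLE := ⟨hR.out.le⟩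

/-- a rigid name for the addition of the real line -/
def addR {M : Type u} {E : M → M → Prop} {R : M} [iA : Add (Elt E R)] (a b : Elt E R) :
    Elt E R := iA.add a b

omit [Field (Elt E R)] [LinearOrder (Elt E R)] in
instance DFun.add {Γ : Type u} [Ctx E Γ] [hM : Fact (IsModelZF E)] {f g : Γ → Elt E R}
    {iA : Add (Elt E R)} [hA : CodedAdd E R iA] [hf : DFun E f] [hg : DFun E g] :
    DFun E (fun γ => addR (f γ) (g γ)) := by
  obtain ⟨a, ha⟩ := hA.out
  exact DFun.of_graph₂ hM.out ha f g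

omit [Field (Elt E R)] [LinearOrder (Elt E R)] in
instance Dfn.le {Γ : Type u} [Ctx E Γ] [hM : Fact (IsModelZF E)] {f g : Γ → Elt E R}
    {iL : LE (Elt E R)} [hA : CodedLE E R iL] [hf : DFun E f] [hg : DFun E g] :
    Dfn E (fun γ => f γ ≤ g γ) := by
  obtain ⟨a, ha⟩ := hA.out
  exact Dfn.of_rel hM.out ha f g

omit [Field (Elt E R)] in
instance Dfn.lt {Γ : Type u} [Ctx E Γ] [hM : Fact (IsModelZF E)] {f g : Γ → Elt E R}
    [hA : CodedLE E R Preorder.toLE] [hf : DFun E f] [hg : DFun E g] :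
    Dfn E (fun γ => f γ < g γ) :=
  Dfn.congr' E (P := fun γ => ¬ (g γ ≤ f γ)) (fun γ => by simp) inferInstance

end inst

section field

variable [hM : Fact (IsModelZF E)] [hR : Fact (IsRealLine E R)]

/-- greatest lower bounds of definable sets of reals -/
theorem exists_glb (P : Elt E R → Prop)
    (hP : Dfn E (fun p : PUnit.{u + 1} × Elt E R => P p.2)) (hne : ∃ a, P a)
    (hb : ∃ b, ∀ a, P a → b ≤ a) :
    ∃ c, (∀ a, P a → c ≤ a) ∧ ∀ b, (∀ a, P a → b ≤ a) → b ≤ c := by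
  have hP' : ∀ {Γ : Type u} [Ctx E Γ] (f : Γ → Elt E R) [DFun E f], Dfn E (fun γ => P (f γ)) :=
    fun f _ => Dfn.comp₁ E (R := P) hP inferInstance
  obtain ⟨s, -, hs⟩ := sep hM.out (A := R) (fun b => ∀ a, P a → b ≤ a) inferInstance
  obtain ⟨a₀, ha₀⟩ := hne
  obtain ⟨b₀, hb₀⟩ := hb
  obtain ⟨c, hc1, hc2⟩ := hR.out.complete s ⟨b₀, (hs b₀).mpr hb₀⟩
    ⟨a₀, fun a ha => (hs a).mp ha a₀ ha₀⟩
  exact ⟨c, fun a ha => hc2 a fun b hb => (hs b).mp hb a ha, fun b hb => hc1 b ((hs b).mpr hb)⟩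

end field

variable {X : M}

/-- the data of a definable separated uniformity with a base indexed by the positive reals -/
class UData (D : Elt E R → Elt E X → Elt E X → Prop) : Prop where
  dfn : Dfn E (fun p : ((PUnit.{u + 1} × Elt E R) × Elt E X) × Elt E X => D p.1.1.2 p.1.2 p.2)
  refl : ∀ s x, 0 < s → D s x x
  symm : ∀ s x y, D s x y → D s y x
  mono : ∀ s t x y, s ≤ t → D s x y → D t x y
  tri : ∀ r, 0 < r → ∃ s, 0 < s ∧ s ≤ r ∧
    ∀ x y z w, D s x y → D s y z → D s z w → D r x w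
  sep : ∀ x y, (∀ r, 0 < r → D r x y) → x = y

variable (D : Elt E R → Elt E X → Elt E X → Prop)

/-- `s` is small enough for `r` -/
def Good (r s : Elt E R) : Prop :=
  s ≤ r ∧ ∀ x y z w, D s x y → D s y z → D s z w → D r x w

/-- the closure conditions for the scale -/
def ClosedT (S : M) : Prop :=
  Mem2 E S (1 : Elt E R).1 (1 : Elt E R).1 ∧
    ∀ r v s w : Elt E R, Mem2 E S r.1 v.1 → 0 < s → ¬ Good D r (s + s) → w + w = v →
      Mem2 E S s.1 w.1

/-- the scale: the least closed relation between indices and weights -/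
def InT (r v : Elt E R) : Prop := ∀ S : M, ClosedT D S → Mem2 E S r.1 v.1

/-- the entourage of weight `t` -/
def Et (t : Elt E R) (x y : Elt E X) : Prop := ∀ r v, InT D r v → t < v → D r x y

/-- the closure conditions for chains -/
def ClosedW (e : Elt E R) (S : M) : Prop :=
  (∀ x : Elt E X, Mem3 E S x.1 x.1 (0 : Elt E R).1) ∧
    ∀ (x y z : Elt E X) (a t : Elt E R), Mem3 E S x.1 y.1 a.1 → Et D t y z → e ≤ t →
      Mem3 E S x.1 z.1 (a + t).1

/-- `InW D e x z a`: there is a chain from `x` to `z` of total weight `a` with links of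
weight at least `e` -/
def InW (e : Elt E R) (x z : Elt E X) (a : Elt E R) : Prop :=
  ∀ S : M, ClosedW D e S → Mem3 E S x.1 z.1 a.1

section main

variable [hM : Fact (IsModelZF E)] [hR : Fact (IsRealLine E R)] [hD : UData D]

section defin

variable {Γ : Type u} [Ctx E Γ]

instance Dfn.good {r s : Γ → Elt E R} [hr : DFun E r] [hs : DFun E s] :
    Dfn E (fun γ => Good D (r γ) (s γ)) := by
  refine Dfn.comp₂ E (R := Good D) ?_ hr hs
  have iD : ∀ {Γ : Type u} [Ctx E Γ] (s : Γ → Elt E R) (x y : Γ → Elt E X) [DFun E s] [DFun E x]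
      [DFun E y], Dfn E (fun γ => D (s γ) (x γ) (y γ)) := fun s x y _ _ _ =>
    Dfn.comp₃ E (R := D) hD.dfn inferInstance inferInstance inferInstance
  unfold Good
  infer_instance

instance Dfn.closedT {S : Γ → M} [hS : DFun E S] : Dfn E (fun γ => ClosedT D (S γ)) := by
  refine Dfn.comp₁ E (R := ClosedT D) ?_ hS
  show Dfn E (fun p : PUnit.{u + 1} × M => Mem2 E p.2 (1 : Elt E R).1 (1 : Elt E R).1 ∧
    ∀ r v s w : Elt E R, Mem2 E p.2 r.1 v.1 → 0 < s → ¬ Good D r (addR s s) → addR w w = v →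
      Mem2 E p.2 s.1 w.1)
  infer_instance

instance Dfn.inT {r v : Γ → Elt E R} [hr : DFun E r] [hv : DFun E v] :
    Dfn E (fun γ => InT D (r γ) (v γ)) := by
  refine Dfn.comp₂ E (R := InT D) ?_ hr hv
  unfold InT
  infer_instance

instance Dfn.et {t : Γ → Elt E R} {x y : Γ → Elt E X} [ht : DFun E t] [hx : DFun E x]
    [hy : DFun E y] : Dfn E (fun γ => Et D (t γ) (x γ) (y γ)) := by
  refine Dfn.comp₃ E (R := Et D) ?_ ht hx hy
  have iD : ∀ {Γ : Type u} [Ctx E Γ] (s : Γ → Elt E R) (x y : Γ → Elt E X) [DFun E s] [DFun E x]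
      [DFun E y], Dfn E (fun γ => D (s γ) (x γ) (y γ)) := fun s x y _ _ _ =>
    Dfn.comp₃ E (R := D) hD.dfn inferInstance inferInstance inferInstance
  unfold Et
  infer_instance

instance Dfn.closedW {e : Γ → Elt E R} {S : Γ → M} [he : DFun E e] [hS : DFun E S] :
    Dfn E (fun γ => ClosedW D (e γ) (S γ)) := by
  refine Dfn.comp₂ E (R := ClosedW D) ?_ he hS
  show Dfn E (fun p : (PUnit.{u + 1} × Elt E R) × M =>
    (∀ x : Elt E X, Mem3 E p.2 x.1 x.1 (0 : Elt E R).1) ∧
    ∀ (x y z : Elt E X) (a t : Elt E R), Mem3 E p.2 x.1 y.1 a.1 → Et D t y z → p.1.2 ≤ t →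
      Mem3 E p.2 x.1 z.1 (addR a t).1)
  infer_instance

instance Dfn.inW {e : Γ → Elt E R} {x z : Γ → Elt E X} {a : Γ → Elt E R} [he : DFun E e]
    [hx : DFun E x] [hz : DFun E z] [ha : DFun E a] :
    Dfn E (fun γ => InW D (e γ) (x γ) (z γ) (a γ)) := by
  refine Dfn.comp₄ E (R := InW D) ?_ he hx hz ha
  unfold InW
  infer_instance

end defin

/-! ### The scale -/

section scale

omit hD

theorem InT.one : InT D 1 1 := fun _ hS => hS.1

theorem InT.step {r v s w : Elt E R} (h : InT D r v) (hs : 0 < s) (hg : ¬ Good D r (s + s))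
    (hw : w + w = v) : InT D s w := fun S hS => hS.2 r v s w (h S hS) hs hg hw

theorem InT.ind (Q : Elt E R → Elt E R → Prop)
    (hQ : Dfn E (fun p : (PUnit.{u + 1} × Elt E R) × Elt E R => Q p.1.2 p.2))
    (h1 : Q 1 1) (hstep : ∀ r v s w, Q r v → 0 < s → ¬ Good D r (s + s) → w + w = v → Q s w)
    {r v : Elt E R} (h : InT D r v) : Q r v := by
  obtain ⟨S, -, hS⟩ := comp2 hM.out Q hQ
  refine (hS r v).mp (h S ⟨(hS _ _).mpr h1, fun r v s w h1 h2 h3 h4 => ?_⟩)
  exact (hS _ _).mpr (hstep r v s w ((hS _ _).mp h1) h2 h3 h4)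

theorem InT.pos {r v : Elt E R} (h : InT D r v) : 0 < r ∧ 0 < v ∧ v ≤ 1 := by
  refine InT.ind D (fun r v => 0 < r ∧ 0 < v ∧ v ≤ 1) (by infer_instance) ⟨one_pos, one_pos, le_rfl⟩
    ?_ h
  rintro r v s w ⟨h1, h2, h3⟩ hs - hw
  refine ⟨hs, ?_, ?_⟩ <;> linarith

end scale

theorem good_mono {r s s' : Elt E R} (h : Good D r s) (hs : s' ≤ s) : Good D r s' :=
  ⟨hs.trans h.1, fun x y z w h1 h2 h3 => h.2 x y z w (hD.mono _ _ _ _ hs h1)
    (hD.mono _ _ _ _ hs h2) (hD.mono _ _ _ _ hs h3)⟩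

theorem good_mono' {r r' s : Elt E R} (h : Good D r s) (hr : r ≤ r') : Good D r' s :=
  ⟨h.1.trans hr, fun x y z w h1 h2 h3 => hD.mono _ _ _ _ hr (h.2 x y z w h1 h2 h3)⟩

theorem exists_good {r : Elt E R} (hr : 0 < r) : ∃ s, 0 < s ∧ Good D r s := by
  obtain ⟨s, h1, h2, h3⟩ := hD.tri r hr
  exact ⟨s, h1, h2, h3⟩

/-- a good `s` such that `2 s` is not good -/
theorem exists_edge {r : Elt E R} (hr : 0 < r) :
    ∃ s, 0 < s ∧ Good D r s ∧ ¬ Good D r (s + s) := by
  obtain ⟨s₀, hs₀, hg₀⟩ := exists_good D hr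
  -- greatest lower bound of the bad numbers
  obtain ⟨c, hc1, hc2⟩ := exists_glb (R := R) (fun s => 0 < s ∧ ¬ Good D r s) (by infer_instance)
    ⟨r + r, by linarith, fun h => by have := h.1; linarith⟩
    ⟨s₀, fun a ha => by
      by_contra hlt
      exact ha.2 (good_mono D hg₀ (le_of_lt (not_le.mp hlt)))⟩
  have hc0 : 0 < c := lt_of_lt_of_le hs₀ (hc2 s₀ fun a ha => by
    by_contra hlt
    exact ha.2 (good_mono D hg₀ (le_of_lt (not_le.mp hlt))))
  refine ⟨3 * c / 4, by linarith, ?_, ?_⟩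
  · by_contra hbad
    have := hc1 (3 * c / 4) ⟨by linarith, hbad⟩
    linarith
  · intro hgood
    have h1 : 3 * c / 4 + 3 * c / 4 ≤ c := hc2 _ fun a ha => by
      by_contra hlt
      exact ha.2 (good_mono D hgood (le_of_lt (not_le.mp hlt)))
    linarith

theorem scale_small {r : Elt E R} (hr : 0 < r) : ∃ r' v, InT D r' v ∧ r' ≤ r := by
  obtain ⟨c, hc1, hc2⟩ := exists_glb (R := R) (fun r' => ∃ v, InT D r' v) (by infer_instance)
    ⟨1, 1, InT.one D⟩ ⟨0, fun a ⟨v, hv⟩ => (InT.pos D hv).1.le⟩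
  have hc0 : 0 ≤ c := hc2 0 fun a ⟨v, hv⟩ => (InT.pos D hv).1.le
  by_contra hcon
  push Not at hcon
  have hrc : r ≤ c := hc2 r fun a ⟨v, hv⟩ => (hcon a v hv).le
  have hcpos : 0 < c := lt_of_lt_of_le hr hrc
  -- an element close to `c`
  have : ∃ a v, InT D a v ∧ a < 5 * c / 4 := by
    by_contra hno
    push Not at hno
    have := hc2 (5 * c / 4) fun a ⟨v, hv⟩ => hno a v hv
    linarith
  obtain ⟨a, v, hav, hac⟩ := this
  have ha := (InT.pos D hav).1
  have h1 : InT D (2 * a / 3) (v / 2) := by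
    refine InT.step D hav (by linarith) (fun hg => ?_) (by ring)
    have := hg.1
    linarith
  have := hc1 (2 * a / 3) ⟨v / 2, h1⟩
  linarith

/-- small entourages of the scale are contained in the given ones -/
theorem et_sub {r : Elt E R} (hr : 0 < r) : ∃ t, 0 < t ∧ ∀ x y, Et D t x y → D r x y := by
  obtain ⟨r', v, hv, hr'⟩ := scale_small D hr
  have hpos := (InT.pos D hv).2.1
  refine ⟨v / 2, by linarith, fun x y h => hD.mono _ _ _ _ hr' (h r' v hv (by linarith))⟩

/-- the weights tend to zero -/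
theorem weight_small {t : Elt E R} (ht : 0 < t) :
    ∃ r, 0 < r ∧ ∀ r' v, InT D r' v → r' ≤ r → v ≤ t := by
  obtain ⟨c, hc1, hc2⟩ := exists_glb (R := R)
    (fun t => 0 < t ∧ ∃ r, 0 < r ∧ ∀ r' v, InT D r' v → r' ≤ r → v ≤ t) (by infer_instance)
    ⟨1, one_pos, 1, one_pos, fun r' v h _ => (InT.pos D h).2.2⟩
    ⟨0, fun a ha => ha.1.le⟩
  have hc0 : 0 ≤ c := hc2 0 fun a ha => ha.1.le
  -- the greatest lower bound is zero
  have hczero : c ≤ 0 := by
    by_contra hpos
    push Not at hpos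
    have : ∃ a, (0 < a ∧ ∃ r, 0 < r ∧ ∀ r' v, InT D r' v → r' ≤ r → v ≤ a) ∧ a < 5 * c / 4 := by
      by_contra hno
      push Not at hno
      have := hc2 (5 * c / 4) fun a ha => hno a ha
      linarith
    obtain ⟨a, ⟨ha0, r₀, hr₀, hr₀'⟩, hac⟩ := this
    obtain ⟨s₀, hs₀, hg₀⟩ := exists_good D hr₀
    -- the new bound
    set r₁ : Elt E R := min (s₀ / 2) (1 / 2) with hr₁
    have hr₁pos : 0 < r₁ := lt_min (by linarith) (by linarith)
    have hr₁le : r₁ ≤ s₀ / 2 := min_le_left _ _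
    have hr₁le' : r₁ ≤ 1 / 2 := min_le_right _ _
    have key : ∀ r v, InT D r v → InT D r v ∧ (r ≤ r₁ → v ≤ 3 * c / 4) := by
      intro r v hrv
      refine InT.ind D (fun r v => InT D r v ∧ (r ≤ r₁ → v ≤ 3 * c / 4)) (by infer_instance)
        ⟨InT.one D, fun h => ?_⟩ ?_ hrv
      · exfalso; linarith
      · rintro r v s w ⟨h1, h2⟩ hs hbad hw
        refine ⟨InT.step D h1 hs hbad hw, fun hsr => ?_⟩
        have hrr : r ≤ r₀ := by
          by_contra hlt
          push Not at hlt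
          exact hbad (good_mono D (good_mono' D hg₀ hlt.le) (by linarith))
        have := hr₀' r v h1 hrr
        linarith
    have := hc1 (3 * c / 4) ⟨by linarith, r₁, hr₁pos, fun r' v h1 h2 => (key r' v h1).2 h2⟩
    linarith
  have : ∃ a, (0 < a ∧ ∃ r, 0 < r ∧ ∀ r' v, InT D r' v → r' ≤ r → v ≤ a) ∧ a < t := by
    by_contra hno
    push Not at hno
    have := hc2 t fun a ha => hno a ha
    linarith
  obtain ⟨a, ⟨-, r, hr, hr'⟩, hat⟩ := this
  exact ⟨r, hr, fun r' v h1 h2 => (hr' r' v h1 h2).trans hat.le⟩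

/-- the given entourages are contained in the entourages of the scale -/
theorem sub_et {t : Elt E R} (ht : 0 < t) : ∃ s, 0 < s ∧ ∀ x y, D s x y → Et D t x y := by
  obtain ⟨r, hr, h⟩ := weight_small D ht
  refine ⟨r, hr, fun x y hxy r' v h1 h2 => ?_⟩
  have : r ≤ r' := by
    by_contra hlt
    push Not at hlt
    have := h r' v h1 hlt.le
    linarith
  exact hD.mono _ _ _ _ this hxy

theorem et_refl (t : Elt E R) (x : Elt E X) : Et D t x x :=
  fun r _ h _ => hD.refl r x (InT.pos D h).1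

theorem et_symm {t : Elt E R} {x y : Elt E X} (h : Et D t x y) : Et D t y x :=
  fun r v h1 h2 => hD.symm _ _ _ (h r v h1 h2)

omit hM hR hD in
theorem et_mono {t t' : Elt E R} {x y : Elt E X} (h : Et D t x y) (ht : t ≤ t') : Et D t' x y :=
  fun r v h1 h2 => h r v h1 (lt_of_le_of_lt ht h2)

theorem et_one (x y : Elt E X) : Et D 1 x y := fun r v h1 h2 => by
  have := (InT.pos D h1).2.2
  exact absurd h2 (not_lt.mpr this)

theorem et_tri {t : Elt E R} {x y z w : Elt E X} (h1 : Et D t x y) (h2 : Et D t y z)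
    (h3 : Et D t z w) : Et D (t + t) x w := by
  intro r v hrv htv
  obtain ⟨s, hs, hg, hb⟩ := exists_edge D (InT.pos D hrv).1
  have h4 : InT D s (v / 2) := InT.step D hrv hs hb (by ring)
  have h5 : t < v / 2 := by linarith
  exact hg.2 x y z w (h1 s _ h4 h5) (h2 s _ h4 h5) (h3 s _ h4 h5)

theorem et_zero {x y : Elt E X} (h : Et D 0 x y) : x = y := by
  refine hD.sep x y fun r hr => ?_
  obtain ⟨t, ht, h1⟩ := et_sub D hr
  exact h1 x y (et_mono D h ht.le)

/-! ### Chains -/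

section chains

omit hD

omit hM hR in
theorem InW.refl (e : Elt E R) (x : Elt E X) : InW D e x x 0 := fun _ hS => hS.1 x

omit hM hR in
theorem InW.step {e : Elt E R} {x y z : Elt E X} {a t : Elt E R} (h : InW D e x y a)
    (ht : Et D t y z) (het : e ≤ t) : InW D e x z (a + t) :=
  fun S hS => hS.2 x y z a t (h S hS) ht het

theorem InW.ind (e : Elt E R) (Q : Elt E X → Elt E X → Elt E R → Prop)
    (hQ : Dfn E (fun p : ((PUnit.{u + 1} × Elt E X) × Elt E X) × Elt E R =>
      Q p.1.1.2 p.1.2 p.2))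
    (h1 : ∀ x, Q x x 0) (hstep : ∀ x y z a t, Q x y a → Et D t y z → e ≤ t → Q x z (a + t))
    {x z : Elt E X} {a : Elt E R} (h : InW D e x z a) : Q x z a := by
  obtain ⟨S, -, hS⟩ := comp3 hM.out Q hQ
  refine (hS _ _ _).mp (h S ⟨fun x => (hS _ _ _).mpr (h1 x), fun x y z a t h1 h2 h3 => ?_⟩)
  exact (hS _ _ _).mpr (hstep x y z a t ((hS _ _ _).mp h1) h2 h3)

theorem InW.nonneg {e : Elt E R} (he : 0 ≤ e) {x z : Elt E X} {a : Elt E R}
    (h : InW D e x z a) : 0 ≤ a := by
  refine InW.ind D e (fun _ _ a => 0 ≤ a) (by infer_instance) (fun _ => le_rfl) ?_ h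
  intro x y z a t h1 _ h3
  linarith

omit hM hR in
theorem InW.mono {e e' : Elt E R} (he : e' ≤ e) {x z : Elt E X} {a : Elt E R}
    (h : InW D e x z a) : InW D e' x z a :=
  fun S hS => h S ⟨hS.1, fun x y z a t h1 h2 h3 => hS.2 x y z a t h1 h2 (he.trans h3)⟩

end chains

/-- a chain from `x` to `z` of weight `a` splits at position `b` -/
def SplitAt (e : Elt E R) (x z : Elt E X) (a b : Elt E R) : Prop :=
  ∃ p q : Elt E X, ∃ s t s' : Elt E R, (InW D e x p s ∧ Et D t p q) ∧ (e ≤ t ∧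
    InW D e q z s') ∧ a = s + (t + s') ∧ s ≤ b ∧ s' + b ≤ a

instance Dfn.splitAt {Γ : Type u} [Ctx E Γ] (e : Elt E R) {x z : Γ → Elt E X}
    {a b : Γ → Elt E R} [hx : DFun E x] [hz : DFun E z] [ha : DFun E a] [hb : DFun E b] :
    Dfn E (fun γ => SplitAt D e (x γ) (z γ) (a γ) (b γ)) := by
  refine Dfn.comp₄ E (R := SplitAt D e) ?_ hx hz ha hb
  show Dfn E (fun g : (((PUnit.{u + 1} × Elt E X) × Elt E X) × Elt E R) × Elt E R =>
    ∃ p q : Elt E X, ∃ s t s' : Elt E R, (InW D e g.1.1.1.2 p s ∧ Et D t p q) ∧ (e ≤ t ∧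
    InW D e q g.1.1.2 s') ∧ g.1.2 = addR s (addR t s') ∧ s ≤ g.2 ∧ addR s' g.2 ≤ g.1.2)
  infer_instance

/-- every chain of positive total weight can be split at any given position -/
theorem InW.split {e : Elt E R} (he : 0 ≤ e) {x z : Elt E X} {a : Elt E R}
    (h : InW D e x z a) : InW D e x z a ∧ ((x = z ∧ a = 0) ∨ ∀ b, 0 ≤ b → b ≤ a →
      SplitAt D e x z a b) := by
  refine InW.ind D e (fun x z a => InW D e x z a ∧ ((x = z ∧ a = 0) ∨ ∀ b, 0 ≤ b → b ≤ a →
      SplitAt D e x z a b)) (by infer_instance)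
    (fun x => ⟨InW.refl D e x, Or.inl ⟨rfl, rfl⟩⟩) ?_ h
  rintro x y z a t ⟨h1, h2⟩ ht het
  have ha : 0 ≤ a := InW.nonneg D he h1
  refine ⟨InW.step D h1 ht het, Or.inr fun b hb hba => ?_⟩
  by_cases hab : a ≤ b
  · exact ⟨y, z, a, t, 0, ⟨h1, ht⟩, ⟨het, InW.refl D e z⟩, by ring, hab, by linarith⟩
  · rcases h2 with ⟨-, h3⟩ | h2
    · exfalso
      subst h3
      exact hab hb
    · obtain ⟨p, q, s, t', s', ⟨k1, k2⟩, ⟨k3, k4⟩, k5, k6, k7⟩ := h2 b hb (le_of_not_ge hab)
      refine ⟨p, q, s, t', s' + t, ⟨k1, k2⟩, ⟨k3, InW.step D k4 ht het⟩, ?_, k6, by linarith⟩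
      rw [k5]; ring

/-- the chain lemma, for chains with links of weight at least `e > 0` -/
theorem InW.et_pos {e : Elt E R} (he : 0 < e) {x z : Elt E X} {a : Elt E R}
    (h : InW D e x z a) : Et D (a + a) x z := by
  by_contra hcon
  obtain ⟨c, hc1, hc2⟩ := exists_glb (R := R)
    (fun a => ∃ x z, InW D e x z a ∧ ¬ Et D (addR a a) x z) (by infer_instance)
    ⟨a, x, z, h, hcon⟩ ⟨0, fun a ⟨x, z, h, _⟩ => InW.nonneg D he.le h⟩
  have : ∃ a, (∃ x z, InW D e x z a ∧ ¬ Et D (addR a a) x z) ∧ a < c + e := by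
    by_contra hno
    push Not at hno
    have := hc2 (c + e) fun a ⟨x, z, h1, h2⟩ => hno a ⟨x, z, h1, h2⟩
    linarith
  obtain ⟨a, ⟨x, z, h, hbad⟩, hac⟩ := this
  have ha : 0 ≤ a := InW.nonneg D he.le h
  -- shorter chains are fine
  have hshort : ∀ x z s, InW D e x z s → s < c → Et D (s + s) x z := by
    intro x z s hs hsc
    by_contra hb
    exact absurd (hc1 s ⟨x, z, hs, hb⟩) (not_le.mpr hsc)
  apply hbad
  show Et D (a + a) x z
  rcases (InW.split D he.le h).2 with ⟨rfl, -⟩ | hsplit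
  · exact et_refl D _ _
  · obtain ⟨p, q, s, t, s', ⟨k1, k2⟩, ⟨k3, k4⟩, k5, k6, k7⟩ := hsplit (a / 2) (by linarith)
      (by linarith)
    have hs : 0 ≤ s := InW.nonneg D he.le k1
    have hs' : 0 ≤ s' := InW.nonneg D he.le k4
    have e1 : Et D a x p := et_mono D (hshort x p s k1 (by linarith)) (by linarith)
    have e2 : Et D a p q := et_mono D k2 (by linarith)
    have e3 : Et D a q z := et_mono D (hshort q z s' k4 (by linarith)) (by linarith)
    exact et_tri D e1 e2 e3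

theorem InW.exists_pos {x z : Elt E X} {a : Elt E R} (h : InW D 0 x z a) :
    ∃ e, 0 < e ∧ InW D e x z a := by
  refine InW.ind D 0 (fun x z a => ∃ e, 0 < e ∧ InW D e x z a) (by infer_instance)
    (fun x => ⟨1, one_pos, InW.refl D 1 x⟩) ?_ h
  rintro x y z a t ⟨e, he, h1⟩ ht h0t
  rcases h0t.eq_or_lt with rfl | hpos
  · have := et_zero D ht
    subst this
    rw [add_zero]
    exact ⟨e, he, h1⟩
  · exact ⟨min e t, lt_min he hpos, InW.step D (InW.mono D (min_le_left _ _) h1) ht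
      (min_le_right _ _)⟩

/-- the chain lemma -/
theorem InW.et {x z : Elt E X} {a : Elt E R} (h : InW D 0 x z a) : Et D (a + a) x z := by
  obtain ⟨e, he, h1⟩ := InW.exists_pos D h
  exact InW.et_pos D he h1

theorem InW.trans {x y z : Elt E X} {a b : Elt E R} (h : InW D 0 x y a) (h' : InW D 0 y z b) :
    InW D 0 x z (a + b) := by
  refine InW.ind D 0 (fun y z b => ∀ x a, InW D 0 x y a → InW D 0 x z (a + b)) ?_
    ?_ ?_ h' x a h
  · show Dfn E (fun p : ((PUnit.{u + 1} × Elt E X) × Elt E X) × Elt E R =>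
      ∀ (x : Elt E X) (a : Elt E R), InW D 0 x p.1.1.2 a → InW D 0 x p.1.2 (addR a p.2))
    infer_instance
  · intro y x a h; rwa [add_zero]
  · intro y z w b t h1 h2 h3 x a h4
    rw [← add_assoc]
    exact InW.step D (h1 x a h4) h2 h3

theorem InW.symm {x z : Elt E X} {a : Elt E R} (h : InW D 0 x z a) : InW D 0 z x a := by
  refine InW.ind D 0 (fun x z a => InW D 0 z x a) (by infer_instance) (fun x => InW.refl D 0 x) ?_ h
  intro x y z a t h1 h2 h3
  have h4 : InW D 0 z y (0 + t) := InW.step D (InW.refl D 0 z) (et_symm D h2) h3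
  rw [zero_add] at h4
  rw [add_comm]
  exact InW.trans D h4 h1

theorem InW.one (x y : Elt E X) : InW D 0 x y 1 := by
  have := InW.step D (InW.refl D 0 x) (et_one D x y) zero_le_one
  rwa [zero_add] at this

/-! ### The metric -/

theorem exists_rho (x y : Elt E X) : ∃ c, (∀ a, InW D 0 x y a → c ≤ a) ∧
    ∀ b, (∀ a, InW D 0 x y a → b ≤ a) → b ≤ c :=
  exists_glb (R := R) (fun a => InW D 0 x y a) (by infer_instance) ⟨1, InW.one D x y⟩
    ⟨0, fun _ h => InW.nonneg D le_rfl h⟩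

/-- the chain metric -/
noncomputable def rho (x y : Elt E X) : Elt E R := (exists_rho D x y).choose

theorem rho_le {x y : Elt E X} {a : Elt E R} (h : InW D 0 x y a) : rho D x y ≤ a :=
  (exists_rho D x y).choose_spec.1 a h

theorem le_rho {x y : Elt E X} {b : Elt E R} (h : ∀ a, InW D 0 x y a → b ≤ a) :
    b ≤ rho D x y := (exists_rho D x y).choose_spec.2 b h

theorem exists_lt_of_rho {x y : Elt E X} {b : Elt E R} (h : rho D x y < b) :
    ∃ a, InW D 0 x y a ∧ a < b := by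
  by_contra hno
  push Not at hno
  exact absurd (le_rho D hno) (not_le.mpr h)

theorem rho_nonneg (x y : Elt E X) : 0 ≤ rho D x y :=
  le_rho D fun _ h => InW.nonneg D le_rfl h

theorem rho_self (x : Elt E X) : rho D x x = 0 :=
  le_antisymm (rho_le D (InW.refl D 0 x)) (rho_nonneg D x x)

theorem rho_comm (x y : Elt E X) : rho D x y = rho D y x :=
  le_antisymm (le_rho D fun _ h => rho_le D (InW.symm D h))
    (le_rho D fun _ h => rho_le D (InW.symm D h))

theorem rho_triangle (x y z : Elt E X) : rho D x z ≤ rho D x y + rho D y z := by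
  by_contra hcon
  push Not at hcon
  set g := rho D x z - (rho D x y + rho D y z) with hg
  have hgpos : 0 < g := by linarith
  obtain ⟨a, ha, ha'⟩ := exists_lt_of_rho D (b := rho D x y + g / 2) (x := x) (y := y)
    (by linarith)
  obtain ⟨b, hb, hb'⟩ := exists_lt_of_rho D (b := rho D y z + g / 2) (x := y) (y := z)
    (by linarith)
  have := rho_le D (InW.trans D ha hb)
  linarith

/-- the metric controls the entourages -/
theorem rho_small {r : Elt E R} (hr : 0 < r) :
    ∃ t, 0 < t ∧ ∀ x y, rho D x y < t → D r x y := by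
  obtain ⟨t, ht, h⟩ := et_sub D hr
  refine ⟨t / 2, by linarith, fun x y hxy => ?_⟩
  obtain ⟨a, ha, hat⟩ := exists_lt_of_rho D hxy
  exact h x y (et_mono D (InW.et D ha) (by linarith))

/-- the entourages control the metric -/
theorem small_rho {t : Elt E R} (ht : 0 < t) :
    ∃ s, 0 < s ∧ ∀ x y, D s x y → rho D x y < t := by
  obtain ⟨s, hs, h⟩ := sub_et D (t := t / 2) (by linarith)
  refine ⟨s, hs, fun x y hxy => ?_⟩
  have h1 := InW.step D (InW.refl D 0 x) (h x y hxy) (by linarith)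
  have := rho_le D h1
  linarith

theorem rho_eq {x y : Elt E X} (h : rho D x y = 0) : x = y := by
  refine hD.sep x y fun r hr => ?_
  obtain ⟨t, ht, h1⟩ := rho_small D hr
  exact h1 x y (by rw [h]; exact ht)

/-- the metric is an element of the model -/
theorem rho_coded : ∃ f : M, IsGraph₂ E f (rho D) := by
  obtain ⟨S, hS1, hS2⟩ := comp3 hM.out (A := X) (B := X) (C := R)
    (fun x y c => (∀ a, InW D 0 x y a → c ≤ a) ∧ ∀ b, (∀ a, InW D 0 x y a → b ≤ a) → b ≤ c)
    (by infer_instance)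
  have key : ∀ x y c, Mem3 E S x.1 y.1 c.1 ↔ c = rho D x y := by
    intro x y c
    rw [hS2]
    constructor
    · rintro ⟨h1, h2⟩
      exact le_antisymm (le_rho D h1) (h2 _ fun a ha => rho_le D ha)
    · rintro rfl
      exact ⟨fun a ha => rho_le D ha, fun b hb => le_rho D hb⟩
  refine ⟨S, fun p => ⟨fun hp => ?_, ?_⟩⟩
  · obtain ⟨a, b, q, c, h1, h2⟩ := hS1 p hp
    refine ⟨a, b, q, h1, ?_⟩
    rw [← (key a b c).mp ⟨q, h1, p, h2, hp⟩]
    exact h2
  · rintro ⟨a, b, q, h1, h2⟩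
    obtain ⟨q', hq', p', hp', hpS⟩ := (key a b _).mpr rfl
    have := pair_ext hM.out h1 hq'
    subst this
    have := pair_ext hM.out h2 hp'
    subst this
    exact hpS

end main

end Pool.Agent.MP_dae09c_lc
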