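import Mathlib
import Pool.Agent.MP_dae09c_lc.Metrization

/-!
# Compact Hausdorff quasi-metrizable spaces are metrizable in every model of ZF
-/

set_option autoImplicit false
set_option synthInstance.maxSize 100000
set_option synthInstance.maxHeartbeats 4000000

universe u

namespace Pool.Agent.MP_dae09c_lc

variable {M : Type u} {E : M → M → Prop} {R : M} [Field (Elt E R)] [LinearOrder (Elt E R)]
  [hM : Fact (IsModelZF E)] [hR : Fact (IsRealLine E R)] {X T : M}
  {d : Elt E X → Elt E X → Elt E R}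

/-- the canonical entourages of a quasi-metric -/
def DD (d : Elt E X → Elt E X → Elt E R) (s : Elt E R) (x y : Elt E X) : Prop :=
  ∃ u, d u x < s ∧ d u y < s

theorem dfun_d (hq : IsQuasiMetric E R d) {Γ : Type u} [Ctx E Γ] (f g : Γ → Elt E X)
    [DFun E f] [DFun E g] : DFun E (fun γ => d (f γ) (g γ)) := by
  obtain ⟨a, ha⟩ := hq.1
  exact DFun.of_graph₂ hM.out ha f g

/-- balls are open -/
theorem exists_ball (hq : IsQuasiMetric E R d) (hT : Induces E R d T) (x : Elt E X)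
    {s : Elt E R} (hs : 0 < s) :
    ∃ U : M, E U T ∧ E x.1 U ∧ ∀ y : Elt E X, E y.1 U ↔ d x y < s := by
  have iD : ∀ {Γ : Type u} [Ctx E Γ] (f g : Γ → Elt E X) [DFun E f] [DFun E g],
      DFun E (fun γ => d (f γ) (g γ)) := fun f g _ _ => dfun_d hq f g
  obtain ⟨U, hU1, hU2⟩ := sep hM.out (A := X) (fun y => d x y < s) (by infer_instance)
  have hxx := hq.2.2.1 x
  refine ⟨U, (hT U).mpr ⟨hU1, fun y hy => ?_⟩, (hU2 x).mpr (by rw [hxx]; exact hs), hU2⟩
  have hy' := (hU2 y).mp hy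
  refine ⟨s - d x y, by linarith, fun z hz => (hU2 z).mpr ?_⟩
  have := hq.2.2.2.1 x y z
  linarith

/-- Step 1: the canonical entourages are compatible with the topology -/
theorem step_one (hq : IsQuasiMetric E R d) (hT : Induces E R d T) (hc : IsCompactSp E X T)
    (hH : IsHausdorffSp E X T) (x : Elt E X) {r : Elt E R} (hr : 0 < r) :
    ∃ s, 0 < s ∧ ∀ v : Elt E X, (∀ y, d v y < s → d x y < r) ∨ (∀ y, d v y < s → ¬ d x y < s) := by
  have iD : ∀ {Γ : Type u} [Ctx E Γ] (f g : Γ → Elt E X) [DFun E f] [DFun E g],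
      DFun E (fun γ => d (f γ) (g γ)) := fun f g _ _ => dfun_d hq f g
  have htri := hq.2.2.2.1
  have hself := hq.2.2.1
  have hnn := hq.2.1
  obtain ⟨W, hW1, s, hs, hW2⟩ := compact_induction hM.out hc
    (fun U => ∃ s : Elt E R, 0 < s ∧ ∀ v : Elt E X, E v.1 U →
      (∀ y, d v y < s → d x y < r) ∨ (∀ y, d v y < s → ¬ d x y < s))
    (by infer_instance)
    (fun e he => ⟨1, one_pos, fun v hv => absurd hv (he _)⟩)
    (by
      rintro U V W hW ⟨s, hs, h1⟩ ⟨s', hs', h2⟩
      refine ⟨min s s', lt_min hs hs', fun v hv => ?_⟩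
      rcases (hW v.1).mp hv with hv | hv
      · rcases h1 v hv with h | h
        · exact Or.inl fun y hy => h y (lt_of_lt_of_le hy (min_le_left _ _))
        · exact Or.inr fun y hy hxy => h y (lt_of_lt_of_le hy (min_le_left _ _))
            (lt_of_lt_of_le hxy (min_le_left _ _))
      · rcases h2 v hv with h | h
        · exact Or.inl fun y hy => h y (lt_of_lt_of_le hy (min_le_right _ _))
        · exact Or.inr fun y hy hxy => h y (lt_of_lt_of_le hy (min_le_right _ _))
            (lt_of_lt_of_le hxy (min_le_right _ _)))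
    (by
      intro y₀ hy₀
      by_cases hin : d x ⟨y₀, hy₀⟩ < r
      · obtain ⟨U, hU1, hU2, hU3⟩ := exists_ball hq hT ⟨y₀, hy₀⟩
          (s := (r - d x ⟨y₀, hy₀⟩) / 2) (by linarith)
        refine ⟨U, hU1, hU2, (r - d x ⟨y₀, hy₀⟩) / 2, by linarith, fun v hv => Or.inl ?_⟩
        intro y hy
        have h1 := (hU3 v).mp hv
        have h2 := htri x ⟨y₀, hy₀⟩ v
        have h3 := htri x v y
        linarith
      · have hne : y₀ ≠ x.1 := by
          rintro rfl
          apply hin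
          have := hself x
          have h2 : (⟨x.1, hy₀⟩ : Elt E X) = x := rfl
          rw [h2, this]; exact hr
        obtain ⟨G, H, hG, hH', hyG, hxH, hdis⟩ := hH y₀ x.1 hy₀ x.2 hne
        obtain ⟨a, ha, ha'⟩ := ((hT G).mp hG).2 ⟨y₀, hy₀⟩ hyG
        obtain ⟨b, hb, hb'⟩ := ((hT H).mp hH').2 x hxH
        set s := min (a / 2) b with hsdef
        have hs : 0 < s := lt_min (by linarith) hb
        have hsa : s ≤ a / 2 := min_le_left _ _
        have hsb : s ≤ b := min_le_right _ _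
        obtain ⟨U, hU1, hU2, hU3⟩ := exists_ball hq hT ⟨y₀, hy₀⟩ hs
        refine ⟨U, hU1, hU2, s, hs, fun v hv => Or.inr ?_⟩
        intro y hy hxy
        have h1 := (hU3 v).mp hv
        have h2 := htri ⟨y₀, hy₀⟩ v y
        exact hdis y.1 ⟨ha' y (by linarith), hb' y (by linarith)⟩)
  exact ⟨s, hs, fun v => hW2 v (hW1 v.1 v.2)⟩

/-- Step 2: the canonical entourages form a uniformity -/
theorem step_two (hq : IsQuasiMetric E R d) (hT : Induces E R d T) (hc : IsCompactSp E X T)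
    (hH : IsHausdorffSp E X T) {r : Elt E R} (hr : 0 < r) :
    ∃ s, 0 < s ∧ ∀ a b c : Elt E X, DD d s a b → DD d s b c → DD d r a c := by
  have iD : ∀ {Γ : Type u} [Ctx E Γ] (f g : Γ → Elt E X) [DFun E f] [DFun E g],
      DFun E (fun γ => d (f γ) (g γ)) := fun f g _ _ => dfun_d hq f g
  have htri := hq.2.2.2.1
  have hself := hq.2.2.1
  obtain ⟨W, hW1, s, hs, hW2⟩ := compact_induction hM.out hc
    (fun U => ∃ s : Elt E R, 0 < s ∧ ∀ u v : Elt E X, E u.1 U →
      (∃ b, d u b < s ∧ d v b < s) → ∀ a c, d u a < s → d v c < s →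
        ∃ w, d w a < r ∧ d w c < r)
    (by infer_instance)
    (fun e he => ⟨1, one_pos, fun u v hu => absurd hu (he _)⟩)
    (by
      rintro U V W hW ⟨s, hs, h1⟩ ⟨s', hs', h2⟩
      refine ⟨min s s', lt_min hs hs', fun u v hu hb a c ha hc => ?_⟩
      obtain ⟨b, hb1, hb2⟩ := hb
      rcases (hW u.1).mp hu with hu | hu
      · have hle := min_le_left s s'
        exact h1 u v hu ⟨b, lt_of_lt_of_le hb1 hle, lt_of_lt_of_le hb2 hle⟩ a c
          (lt_of_lt_of_le ha hle) (lt_of_lt_of_le hc hle)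
      · have hle := min_le_right s s'
        exact h2 u v hu ⟨b, lt_of_lt_of_le hb1 hle, lt_of_lt_of_le hb2 hle⟩ a c
          (lt_of_lt_of_le ha hle) (lt_of_lt_of_le hc hle))
    (by
      intro x hx
      obtain ⟨s₁, hs₁, h1⟩ := step_one hq hT hc hH ⟨x, hx⟩ hr
      set s := min s₁ r / 2 with hsdef
      have hmin : 0 < min s₁ r := lt_min hs₁ hr
      have hs : 0 < s := by linarith
      have hs1 : s + s ≤ s₁ := by
        have := min_le_left s₁ r; linarith
      have hsr : s + s ≤ r := by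
        have := min_le_right s₁ r; linarith
      obtain ⟨U, hU1, hU2, hU3⟩ := exists_ball hq hT ⟨x, hx⟩ hs
      refine ⟨U, hU1, hU2, s, hs, fun u v hu hb a c ha hc => ?_⟩
      obtain ⟨b, hb1, hb2⟩ := hb
      have hxu := (hU3 u).mp hu
      have hxb := htri ⟨x, hx⟩ u b
      have hxa := htri ⟨x, hx⟩ u a
      refine ⟨⟨x, hx⟩, by linarith, ?_⟩
      rcases h1 v with h2 | h2
      · exact h2 c (by linarith)
      · exact absurd (show d ⟨x, hx⟩ b < s₁ by linarith) (h2 b (by linarith)))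
  refine ⟨s, hs, fun a b c hab hbc => ?_⟩
  obtain ⟨u, hu1, hu2⟩ := hab
  obtain ⟨v, hv1, hv2⟩ := hbc
  exact hW2 u v (hW1 u.1 u.2) ⟨b, hu2, hv1⟩ a c hu1 hv2

theorem dd_mono {s t : Elt E R} {x y : Elt E X} (h : s ≤ t) (hxy : DD d s x y) : DD d t x y := by
  obtain ⟨u, h1, h2⟩ := hxy
  exact ⟨u, lt_of_lt_of_le h1 h, lt_of_lt_of_le h2 h⟩

/-- the topology in terms of the canonical entourages -/
theorem dd_ball (hq : IsQuasiMetric E R d) (hT : Induces E R d T) (hc : IsCompactSp E X T)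
    (hH : IsHausdorffSp E X T) (x : Elt E X) {r : Elt E R} (hr : 0 < r) :
    ∃ s, 0 < s ∧ ∀ y, DD d s x y → d x y < r := by
  obtain ⟨s, hs, h⟩ := step_one hq hT hc hH x hr
  refine ⟨s, hs, fun y ⟨u, h1, h2⟩ => ?_⟩
  rcases h u with h3 | h3
  · exact h3 y h2
  · refine absurd ?_ (h3 x h1)
    rw [hq.2.2.1 x]; exact hs

theorem eq_of_zero (hT : Induces E R d T) (hH : IsHausdorffSp E X T) {x y : Elt E X}
    (h : ∀ r, 0 < r → d x y < r) : x = y := by
  by_contra hne
  have hne' : x.1 ≠ y.1 := fun h => hne (Subtype.ext h)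
  obtain ⟨U, V, hU, hV, hxU, hyV, hdis⟩ := hH x.1 y.1 x.2 y.2 hne'
  obtain ⟨r, hr, h1⟩ := ((hT U).mp hU).2 x hxU
  exact hdis y.1 ⟨h1 y (h r hr), hyV⟩

theorem udata (hq : IsQuasiMetric E R d) (hT : Induces E R d T) (hc : IsCompactSp E X T)
    (hH : IsHausdorffSp E X T) : UData (DD d) where
  dfn := by
    have iD : ∀ {Γ : Type u} [Ctx E Γ] (f g : Γ → Elt E X) [DFun E f] [DFun E g],
        DFun E (fun γ => d (f γ) (g γ)) := fun f g _ _ => dfun_d hq f g
    unfold DD
    infer_instance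
  refl := fun s x hs => ⟨x, by rw [hq.2.2.1 x]; exact hs, by rw [hq.2.2.1 x]; exact hs⟩
  symm := fun s x y ⟨u, h1, h2⟩ => ⟨u, h2, h1⟩
  mono := fun s t x y h hxy => dd_mono h hxy
  tri := fun r hr => by
    obtain ⟨s, hs, h1⟩ := step_two hq hT hc hH hr
    obtain ⟨s', hs', h2⟩ := step_two hq hT hc hH hs
    refine ⟨min (min s s') r, lt_min (lt_min hs hs') hr, min_le_right _ _, ?_⟩
    intro x y z w hxy hyz hzw
    have e1 : min (min s s') r ≤ s' := (min_le_left _ _).trans (min_le_right _ _)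
    have e2 : min (min s s') r ≤ s := (min_le_left _ _).trans (min_le_left _ _)
    exact h1 x z w (h2 x y z (dd_mono e1 hxy) (dd_mono e1 hyz)) (dd_mono e2 hzw)
  sep := fun x y h => by
    refine eq_of_zero hT hH fun r hr => ?_
    obtain ⟨s, hs, h1⟩ := dd_ball hq hT hc hH x hr
    exact h1 y (h s hs)

theorem metrizable_of (hq : IsQuasiMetric E R d) (hT : Induces E R d T) (hc : IsCompactSp E X T)
    (hH : IsHausdorffSp E X T) : Metrizable E R X T := by
  have := udata hq hT hc hH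
  refine ⟨rho (DD d), ⟨rho_coded _, rho_nonneg _, rho_self _, rho_triangle _,
    fun x y h _ => rho_eq _ h⟩, rho_comm _, fun U => ?_⟩
  rw [hT U]
  refine and_congr_right fun _ => forall₂_congr fun x _ => ?_
  constructor
  · rintro ⟨r, hr, h⟩
    obtain ⟨s, hs, h1⟩ := dd_ball hq hT hc hH x hr
    obtain ⟨t, ht, h2⟩ := rho_small (DD d) hs
    exact ⟨t, ht, fun y hy => h y (h1 y (h2 x y hy))⟩
  · rintro ⟨t, ht, h⟩
    obtain ⟨s, hs, h1⟩ := small_rho (DD d) ht
    refine ⟨s, hs, fun y hy => h y (h1 x y ⟨x, ?_, hy⟩)⟩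
    rw [hq.2.2.1 x]; exact hs

end Pool.Agent.MP_dae09c_lc
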